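import Pool.Agent.Helper80.CB.Stmts

/-!
# Invariant polynomials separate the orbits of a compact group
-/

namespace Pool.Agent.Helper80.CB

open Matrix MvPolynomial MeasureTheory

/-- the polynomial `P (M z)` in the entries of `M` and in `z` -/
noncomputable def sep_Q {q : ℕ} (P : MvPolynomial (Fin q) ℝ) :
    MvPolynomial (Fin q) (MvPolynomial (Fin q × Fin q) ℝ) :=
  MvPolynomial.aeval (fun i : Fin q => ∑ j, C (X (i, j)) * X j) P

theorem sep_eval {q : ℕ} (P : MvPolynomial (Fin q) ℝ) (M : Matrix (Fin q) (Fin q) ℝ)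
    (z : Fin q → ℝ) :
    eval₂ (eval (fun ij : Fin q × Fin q => M ij.1 ij.2)) z (sep_Q P) = eval (M *ᵥ z) P := by
  induction P using MvPolynomial.induction_on with
  | C a =>
    unfold sep_Q
    rw [MvPolynomial.aeval_C, eval_C]
    have : (algebraMap ℝ (MvPolynomial (Fin q) (MvPolynomial (Fin q × Fin q) ℝ))) a =
      C (C a) := rfl
    rw [this, eval₂_C, eval_C]
  | add p r hp hr =>
    unfold sep_Q at hp hr ⊢
    rw [map_add, eval₂_add, hp, hr, map_add]
  | mul_X p i hp =>
    unfold sep_Q at hp ⊢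
    rw [map_mul, eval₂_mul, hp, map_mul, MvPolynomial.aeval_X, eval_X, eval₂_sum]
    congr 1
    unfold Matrix.mulVec dotProduct
    refine Finset.sum_congr rfl (fun j _ => ?_)
    rw [eval₂_mul, eval₂_C, eval₂_X, eval_X]

theorem sep_abstract {G : Type} [Group G] [TopologicalSpace G] [IsTopologicalGroup G]
    [CompactSpace G] {q : ℕ} (A : G →* Matrix (Fin q) (Fin q) ℝ) (hA : Continuous A)
    (x y : Fin q → ℝ) (hxy : ∀ g, A g *ᵥ x ≠ y) :
    ∃ P : MvPolynomial (Fin q) ℝ, (∀ g z, eval (A g *ᵥ z) P = eval z P) ∧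
      eval x P ≠ eval y P := by
  let _ : MeasurableSpace G := borel G
  have _ : BorelSpace G := ⟨rfl⟩
  set μ : Measure G := Measure.haarMeasure (⊤ : TopologicalSpace.PositiveCompacts G) with hμ
  have hμ1 : μ Set.univ = 1 := by
    have := Measure.haarMeasure_self (G := G) (K₀ := (⊤ : TopologicalSpace.PositiveCompacts G))
    simpa using this
  have _ : IsProbabilityMeasure μ := ⟨hμ1⟩
  have hcv : ∀ z : Fin q → ℝ, Continuous (fun g : G => A g *ᵥ z) := by
    intro z
    exact hA.matrix_mulVec continuous_const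
  -- the two orbits
  have hO : ∀ z : Fin q → ℝ, IsCompact (Set.range (fun g : G => A g *ᵥ z)) :=
    fun z => isCompact_range (hcv z)
  have hd : Disjoint (Set.range (fun g : G => A g *ᵥ x)) (Set.range (fun g : G => A g *ᵥ y)) := by
    rw [Set.disjoint_left]
    rintro _ ⟨g, rfl⟩ ⟨h, hh⟩
    dsimp only at hh
    refine hxy (h⁻¹ * g) ?_
    rw [map_mul, ← Matrix.mulVec_mulVec, ← hh, Matrix.mulVec_mulVec, ← map_mul, inv_mul_cancel,
      map_one, Matrix.one_mulVec]
  obtain ⟨f, hf0, hf1, -⟩ := exists_continuous_zero_one_of_isClosed (hO x).isClosed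
    (hO y).isClosed hd
  -- the subalgebra of polynomial functions
  let ev : MvPolynomial (Fin q) ℝ →ₐ[ℝ] C(Fin q → ℝ, ℝ) :=
    MvPolynomial.aeval (fun i => (⟨fun z => z i, continuous_apply i⟩ : C(Fin q → ℝ, ℝ)))
  have hev : ∀ P z, ev P z = eval z P := by
    intro P z
    induction P using MvPolynomial.induction_on with
    | C a =>
      have h1 : ev (C a) = algebraMap ℝ C(Fin q → ℝ, ℝ) a := MvPolynomial.aeval_C _ a
      rw [eval_C, h1]
      rfl
    | add p r hp hr =>
      rw [map_add, map_add, ContinuousMap.add_apply, hp, hr]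
    | mul_X p i hp =>
      rw [map_mul, map_mul, ContinuousMap.mul_apply, hp, eval_X]
      have h1 : ev (X i) = ⟨fun z => z i, continuous_apply i⟩ := MvPolynomial.aeval_X _ i
      rw [h1]
      rfl
  have hsep : ev.range.SeparatesPoints := by
    intro z z' hz
    obtain ⟨i, hi⟩ := Function.ne_iff.1 hz
    refine ⟨fun w => w i, ⟨ev (X i), ⟨X i, rfl⟩, ?_⟩, hi⟩
    funext w
    have h1 : ev (X i) w = eval w (X i) := hev _ _
    rw [eval_X] at h1
    exact h1
  obtain ⟨g0, ⟨P, hP0⟩, hP⟩ :=
    ContinuousMap.exists_mem_subalgebra_near_continuous_of_isCompact_of_separatesPoints hsep f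
      ((hO x).union (hO y)) (ε := 1 / 3) (by norm_num)
  have hPx : ∀ g, |eval (A g *ᵥ x) P| < 1 / 3 := by
    intro g
    have h := hP (A g *ᵥ x) (Or.inl ⟨g, rfl⟩)
    rw [← hP0] at h
    have h0 : f (A g *ᵥ x) = 0 := hf0 ⟨g, rfl⟩
    rw [h0, sub_zero, Real.norm_eq_abs] at h
    have h2 : ev P (A g *ᵥ x) = eval (A g *ᵥ x) P := hev _ _
    rw [← h2]
    exact h
  have hPy : ∀ g, |eval (A g *ᵥ y) P - 1| < 1 / 3 := by
    intro g
    have h := hP (A g *ᵥ y) (Or.inr ⟨g, rfl⟩)
    rw [← hP0] at h
    have h0 : f (A g *ᵥ y) = 1 := hf1 ⟨g, rfl⟩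
    rw [h0, Real.norm_eq_abs] at h
    have h2 : ev P (A g *ᵥ y) = eval (A g *ᵥ y) P := hev _ _
    rw [← h2]
    exact h
  -- the average
  set m : G → (Fin q × Fin q → ℝ) := fun g ij => A g⁻¹ ij.1 ij.2 with hm
  have hmc : Continuous m := by
    refine continuous_pi (fun ij => ?_)
    have h1 : Continuous (fun g : G => A g⁻¹) := hA.comp continuous_inv
    exact (continuous_apply ij.2).comp ((continuous_apply ij.1).comp h1)
  have hint : ∀ F : G → ℝ, Continuous F → Integrable F μ := by
    intro F hF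
    exact hF.integrable_of_hasCompactSupport (HasCompactSupport.of_compactSpace F)
  set Pb : MvPolynomial (Fin q) ℝ :=
    ∑ d ∈ (sep_Q P).support, monomial d (∫ g, eval (m g) ((sep_Q P).coeff d) ∂μ) with hPb
  have hPbe : ∀ z, eval z Pb = ∫ g, eval (A g⁻¹ *ᵥ z) P ∂μ := by
    intro z
    have e1 : ∀ g, eval (A g⁻¹ *ᵥ z) P =
        ∑ d ∈ (sep_Q P).support, eval (m g) ((sep_Q P).coeff d) * ∏ i, z i ^ d i := by
      intro g
      rw [← sep_eval, eval₂_eq']
    simp_rw [e1]
    rw [integral_finsetSum]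
    · rw [hPb, map_sum]
      refine Finset.sum_congr rfl (fun d _ => ?_)
      rw [integral_mul_const, eval_monomial]
      congr 1
      rw [Finsupp.prod_fintype]
      intro i
      rw [pow_zero]
    · intro d _
      refine hint _ ?_
      exact ((MvPolynomial.continuous_eval _).comp hmc).mul continuous_const
  refine ⟨Pb, fun h z => ?_, ?_⟩
  · rw [hPbe, hPbe, ← integral_mul_left_eq_self (fun g => eval (A g⁻¹ *ᵥ z) P) h⁻¹]
    congr 1
    funext g
    rw [_root_.mul_inv_rev, inv_inv, map_mul, Matrix.mulVec_mulVec]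
  · have hc : ∀ z, Integrable (fun g => eval (A g⁻¹ *ᵥ z) P) μ := by
      intro z
      refine hint _ ?_
      exact (MvPolynomial.continuous_eval _).comp ((hcv z).comp continuous_inv)
    have b1 : eval x Pb ≤ 1 / 3 := by
      rw [hPbe]
      calc ∫ g, eval (A g⁻¹ *ᵥ x) P ∂μ ≤ ∫ g, (1 / 3 : ℝ) ∂μ := by
            refine integral_mono (hc x) (integrable_const _) (fun g => ?_)
            exact (le_abs_self _).trans (hPx g⁻¹).le
        _ = 1 / 3 := by simp
    have b2 : 2 / 3 ≤ eval y Pb := by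
      rw [hPbe]
      calc (2 / 3 : ℝ) = ∫ g, (2 / 3 : ℝ) ∂μ := by simp
        _ ≤ ∫ g, eval (A g⁻¹ *ᵥ y) P ∂μ := by
            refine integral_mono (integrable_const _) (hc y) (fun g => ?_)
            have := abs_lt.1 (hPy g⁻¹)
            dsimp only
            linarith [this.1]
    intro h
    linarith

theorem sep_compact {n : ℕ} (D : Cpt n) : IsCompact D.S := by
  have h1 : IsCompact {A : Mat n | ∀ i j, ‖A i j‖ ≤ 1} := by
    have h2 : IsCompact (Set.pi Set.univ (fun _ : Fin n => Set.pi Set.univ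
        (fun _ : Fin n => Metric.closedBall (0 : ℂ) 1))) :=
      isCompact_univ_pi (fun _ => isCompact_univ_pi (fun _ => isCompact_closedBall 0 1))
    have h3 : {A : Mat n | ∀ i j, ‖A i j‖ ≤ 1} = (Set.pi Set.univ (fun _ : Fin n =>
        Set.pi Set.univ (fun _ : Fin n => Metric.closedBall (0 : ℂ) 1))) := by
      ext A
      constructor
      · intro h i _ j _
        exact mem_closedBall_zero_iff.2 (h i j)
      · intro h i j
        exact mem_closedBall_zero_iff.1 (h i trivial j trivial)
    rw [h3]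
    exact h2
  refine h1.of_isClosed_subset D.closed (fun g hg i j => ?_)
  exact entry_norm_bound_of_unitary (Matrix.mem_unitaryGroup_iff'.2 (D.unit g hg)) i j

/-- the group as a subgroup of the unitary group -/
def sep_G {n : ℕ} (D : Cpt n) : Subgroup (Matrix.unitaryGroup (Fin n) ℂ) where
  carrier := {u | (u : Mat n) ∈ D.S}
  mul_mem' ha hb := D.mul_mem _ ha _ hb
  one_mem' := D.one_mem
  inv_mem' ha := D.star_mem _ ha

theorem sep_cptG {n : ℕ} (D : Cpt n) : CompactSpace (sep_G D) := by
  rw [← isCompact_univ_iff]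
  have hi : Topology.IsInducing (fun u : sep_G D => ((u : Matrix.unitaryGroup (Fin n) ℂ) : Mat n)) :=
    Topology.IsInducing.subtypeVal.comp Topology.IsInducing.subtypeVal
  rw [hi.isCompact_iff, Set.image_univ]
  have hr : Set.range (fun u : sep_G D => ((u : Matrix.unitaryGroup (Fin n) ℂ) : Mat n)) = D.S := by
    ext g
    constructor
    · rintro ⟨u, rfl⟩
      exact u.2
    · intro hg
      exact ⟨⟨⟨g, Matrix.mem_unitaryGroup_iff'.2 (D.unit g hg)⟩, hg⟩, rfl⟩
  rw [hr]
  exact sep_compact D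

/-- the adjoint action -/
def sep_Ad {n : ℕ} (D : Cpt n) : sep_G D →* (D.h →ₗ[ℝ] D.h) where
  toFun g :=
    { toFun := fun X => ⟨(g.1 : Mat n) * X * (g.1 : Mat n)ᴴ, D.Ad_mem _ g.2 X X.2⟩
      map_add' := fun X Y => by
        refine Subtype.ext ?_
        simp only [Submodule.coe_add, Matrix.mul_add, Matrix.add_mul]
      map_smul' := fun a X => by
        refine Subtype.ext ?_
        simp only [Submodule.coe_smul, Matrix.mul_smul, Matrix.smul_mul, RingHom.id_apply] }
  map_one' := by
    refine LinearMap.ext (fun X => Subtype.ext ?_)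
    simp
  map_mul' g h := by
    refine LinearMap.ext (fun X => Subtype.ext ?_)
    simp [Matrix.mul_assoc]

/-- the matrix of the adjoint action -/
noncomputable def sep_A {n q : ℕ} (D : Cpt n) (b : Module.Basis (Fin q) ℝ D.h) :
    sep_G D →* Matrix (Fin q) (Fin q) ℝ where
  toFun g := LinearMap.toMatrix b b (sep_Ad D g)
  map_one' := by
    rw [map_one]
    exact LinearMap.toMatrix_one b
  map_mul' g h := by
    rw [map_mul]
    exact LinearMap.toMatrix_mul b _ _

theorem sep_cont {n q : ℕ} (D : Cpt n) (b : Module.Basis (Fin q) ℝ D.h) :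
    Continuous (sep_A D b) := by
  refine continuous_pi (fun i => continuous_pi (fun j => ?_))
  have h1 : ∀ g, sep_A D b g i j = b.coord i (sep_Ad D g (b j)) := by
    intro g
    change LinearMap.toMatrix b b (sep_Ad D g) i j = _
    rw [LinearMap.toMatrix_apply]
    rfl
  simp_rw [h1]
  have hf : Module.Finite ℝ D.h := Module.Finite.of_basis b
  have h2 : Continuous (b.coord i) := LinearMap.continuous_of_finiteDimensional _
  refine h2.comp ?_
  refine Continuous.subtype_mk (f := fun g : sep_G D =>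
    (g.1 : Mat n) * ((b j : D.h) : Mat n) * (g.1 : Mat n)ᴴ) ?_ _
  have h3 : Continuous (fun g : sep_G D => (g.1 : Mat n)) :=
    continuous_subtype_val.comp continuous_subtype_val
  exact (h3.matrix_mul continuous_const).matrix_mul h3.matrix_conjTranspose

/-- A_SEP -/
theorem st_SEP : ST_SEP := by
  intro n q D b X Y hXY
  have _ := sep_cptG D
  have hrepr : ∀ (g : sep_G D) (Z : D.h), sep_A D b g *ᵥ (fun i => b.repr Z i) =
      fun i => b.repr (sep_Ad D g Z) i := by
    intro g Z
    exact LinearMap.toMatrix_mulVec_repr b b (sep_Ad D g) Z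
  obtain ⟨P, hP1, hP2⟩ := sep_abstract (sep_A D b) (sep_cont D b) (fun i => b.repr X i)
    (fun i => b.repr Y i) (by
      intro g h
      rw [hrepr] at h
      have h1 : b.repr (sep_Ad D g X) = b.repr Y := Finsupp.ext (fun i => congrFun h i)
      have h2 := b.repr.injective h1
      exact hXY _ g.2 (congrArg Subtype.val h2))
  refine ⟨P, ?_, hP2⟩
  intro g hg Z
  have h := hP1 (⟨⟨g, Matrix.mem_unitaryGroup_iff'.2 (D.unit g hg)⟩, hg⟩ : sep_G D)
    (fun i => b.repr Z i)
  rw [hrepr] at h
  exact h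

end Pool.Agent.Helper80.CB
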