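import Pool.Agent.Helper83.CB.Defs4

/-!
# The torus family of hyperplanes (Part 3)
-/

open Filter Topology MeasureTheory

namespace Pool.Agent.Helper83.CB

/-! ## scalar functions -/

/-- distance to the nearest integer -/
noncomputable def torus_nn (s : ℝ) : ℝ := |s - round s|

theorem torus_nn_le (s : ℝ) (k : ℤ) : torus_nn s ≤ |s - k| := round_le s k

theorem torus_nn_nonneg (s : ℝ) : 0 ≤ torus_nn s := abs_nonneg _

theorem torus_nn_half (s : ℝ) : torus_nn s ≤ 1 / 2 := abs_sub_round s

theorem torus_nn_lip (s t : ℝ) : |torus_nn s - torus_nn t| ≤ |s - t| := by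
  rw [abs_le]
  have h1 := torus_nn_le s (round t)
  have h2 := torus_nn_le t (round s)
  have e1 : |s - round t| ≤ |s - t| + torus_nn t := by
    have : s - (round t : ℝ) = (s - t) + (t - round t) := by ring
    rw [this]
    exact abs_add_le _ _
  have e2 : |t - round s| ≤ |s - t| + torus_nn s := by
    have : t - (round s : ℝ) = -(s - t) + (s - round s) := by ring
    rw [this]
    refine (abs_add_le _ _).trans ?_
    rw [abs_neg]
    rfl
  constructor <;> linarith

theorem torus_nn_ge {s c : ℝ} (h : ∀ k : ℤ, c ≤ |s - k|) : c ≤ torus_nn s := h (round s)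

theorem torus_nn_add_int (s : ℝ) (m : ℤ) : torus_nn (s + m) = torus_nn s := by
  refine le_antisymm ?_ ?_
  · have := torus_nn_le (s + m) (round s + m)
    push_cast at this
    have e : s + m - ((round s : ℝ) + m) = s - round s := by ring
    rw [e] at this
    exact this
  · have := torus_nn_le s (round (s + m) - m)
    push_cast at this
    have e : s - ((round (s + m) : ℝ) - m) = s + m - round (s + m) := by ring
    rw [e] at this
    exact this

theorem torus_nn_eq {s : ℝ} {m : ℤ} (h : |s - m| ≤ 1 / 2) : torus_nn s = |s - m| := by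
  refine le_antisymm (torus_nn_le s m) (torus_nn_ge (fun k => ?_))
  rcases eq_or_ne k m with rfl | hk
  · exact le_rfl
  · have h1 : (1 : ℝ) ≤ |(m : ℝ) - k| := by
      have h2 : (1 : ℤ) ≤ |m - k| := Int.one_le_abs (sub_ne_zero.2 hk.symm)
      exact_mod_cast h2
    have h3 : |(m : ℝ) - k| ≤ |s - k| + |s - m| := by
      have : (m : ℝ) - k = (s - k) - (s - m) := by ring
      rw [this]
      exact abs_sub _ _
    linarith

/-- local inverse of the distance -/
noncomputable def torus_T (s : ℝ) : ℝ := 1 / 4 - torus_nn (s - 1 / 4)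

theorem torus_T_lip (s t : ℝ) : |torus_T s - torus_T t| ≤ |s - t| := by
  unfold torus_T
  have h := torus_nn_lip (t - 1 / 4) (s - 1 / 4)
  have e1 : 1 / 4 - torus_nn (s - 1 / 4) - (1 / 4 - torus_nn (t - 1 / 4)) =
    torus_nn (t - 1 / 4) - torus_nn (s - 1 / 4) := by ring
  have e2 : t - 1 / 4 - (s - 1 / 4) = -(s - t) := by ring
  rw [e1]
  rw [e2, abs_neg] at h
  exact h

theorem torus_T_bdd (s : ℝ) : |torus_T s| ≤ 1 := by
  unfold torus_T
  have h1 := torus_nn_nonneg (s - 1 / 4)
  have h2 := torus_nn_half (s - 1 / 4)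
  rw [abs_le]
  constructor <;> linarith

theorem torus_T_add_int (s : ℝ) (m : ℤ) : torus_T (s + m) = torus_T s := by
  unfold torus_T
  have e : s + m - 1 / 4 = (s - 1 / 4) + m := by ring
  rw [e, torus_nn_add_int]

theorem torus_T_eq {s : ℝ} {m : ℤ} (h : |s - m| ≤ 1 / 4) : torus_T s = s - m := by
  unfold torus_T
  have h1 := abs_le.1 h
  have h2 : |s - 1 / 4 - m| ≤ 1 / 2 := by
    rw [abs_le]
    constructor <;> linarith
  rw [torus_nn_eq h2, abs_of_nonpos (by linarith)]
  ring

/-- the real coordinate of the map to the sphere -/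
noncomputable def torus_a (s t : ℝ) : ℝ := max 0 (1 - 16 * (torus_nn s ^ 2 + torus_nn t ^ 2))

theorem torus_a_nonneg (s t : ℝ) : 0 ≤ torus_a s t := le_max_left _ _

theorem torus_a_le (s t : ℝ) : torus_a s t ≤ 1 := by
  unfold torus_a
  refine max_le zero_le_one ?_
  have := sq_nonneg (torus_nn s)
  have := sq_nonneg (torus_nn t)
  linarith

theorem torus_nn_sq_lip (s t : ℝ) : |torus_nn s ^ 2 - torus_nn t ^ 2| ≤ |s - t| := by
  have e : torus_nn s ^ 2 - torus_nn t ^ 2 =
    (torus_nn s + torus_nn t) * (torus_nn s - torus_nn t) := by ring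
  have h1 := torus_nn_nonneg s
  have h2 := torus_nn_nonneg t
  have h3 := torus_nn_half s
  have h4 := torus_nn_half t
  rw [e, abs_mul, abs_of_nonneg (by linarith)]
  have h5 := torus_nn_lip s t
  have h6 := abs_nonneg (torus_nn s - torus_nn t)
  nlinarith

theorem torus_a_lip (s t s' t' : ℝ) :
    |torus_a s t - torus_a s' t'| ≤ 16 * (|s - s'| + |t - t'|) := by
  unfold torus_a
  rw [max_comm 0, max_comm 0]
  refine (abs_max_sub_max_le_abs _ _ 0).trans ?_
  have h1 := torus_nn_sq_lip s s'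
  have h2 := torus_nn_sq_lip t t'
  have e : (1 - 16 * (torus_nn s ^ 2 + torus_nn t ^ 2)) -
    (1 - 16 * (torus_nn s' ^ 2 + torus_nn t' ^ 2)) =
    -(16 * ((torus_nn s ^ 2 - torus_nn s' ^ 2) + (torus_nn t ^ 2 - torus_nn t' ^ 2))) := by ring
  rw [e, abs_neg, abs_mul, abs_of_pos (by norm_num : (0 : ℝ) < 16)]
  exact mul_le_mul_of_nonneg_left ((abs_add_le _ _).trans (add_le_add h1 h2)) (by norm_num)

/-- the complex coordinate of the map to the sphere -/
noncomputable def torus_w (s t : ℝ) : ℂ :=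
  if 0 < torus_a s t then 4 * (torus_T s + torus_T t * Complex.I) else 1

theorem torus_aw (s t : ℝ) :
    (torus_a s t : ℂ) * torus_w s t = 4 * torus_a s t * (torus_T s + torus_T t * Complex.I) := by
  unfold torus_w
  split_ifs with h
  · ring
  · have h0 : torus_a s t = 0 := le_antisymm (not_lt.1 h) (torus_a_nonneg s t)
    rw [h0]
    simp

theorem torus_a_pos {s t : ℝ} (h : 0 < torus_a s t) :
    torus_nn s < 1 / 4 ∧ torus_nn t < 1 / 4 ∧
      torus_a s t = 1 - 16 * (torus_nn s ^ 2 + torus_nn t ^ 2) := by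
  have h1 : 0 < 1 - 16 * (torus_nn s ^ 2 + torus_nn t ^ 2) := by
    unfold torus_a at h
    rcases lt_max_iff.1 h with h | h
    · exact absurd h (lt_irrefl _)
    · exact h
  have hs := torus_nn_nonneg s
  have ht := torus_nn_nonneg t
  refine ⟨by nlinarith, by nlinarith, ?_⟩
  unfold torus_a
  exact max_eq_right h1.le

theorem torus_T_sq {s : ℝ} (h : torus_nn s ≤ 1 / 4) : torus_T s ^ 2 = torus_nn s ^ 2 := by
  rw [torus_T_eq (m := round s) h]
  unfold torus_nn
  rw [sq_abs]

theorem torus_ww (s t : ℝ) :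
    torus_w s t * (starRingEnd ℂ) (torus_w s t) = ((1 - torus_a s t : ℝ) : ℂ) := by
  rw [Complex.mul_conj]
  unfold torus_w
  split_ifs with h
  · obtain ⟨h1, h2, h3⟩ := torus_a_pos h
    rw [Complex.ofReal_inj, h3, ← torus_T_sq h1.le, ← torus_T_sq h2.le, Complex.normSq_apply]
    simp
    ring
  · have h0 : torus_a s t = 0 := le_antisymm (not_lt.1 h) (torus_a_nonneg s t)
    rw [h0]
    simp

theorem torus_aw_ne (s t : ℝ) : torus_a s t ≠ 0 ∨ torus_w s t ≠ 0 := by
  by_cases h : 0 < torus_a s t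
  · exact Or.inl h.ne'
  · right
    unfold torus_w
    rw [if_neg h]
    exact one_ne_zero

/-- in the strip the map is constant -/
theorem torus_strip {s : ℝ} (h : inStrip s) : 1 / 4 ≤ torus_nn s := by
  unfold inStrip at h
  obtain ⟨h1, h2⟩ := h
  have h3 : torus_nn s = min (Int.fract s) (1 - Int.fract s) := abs_sub_round_eq_min s
  rw [h3]
  exact le_min (by linarith) (by linarith)

theorem torus_a_zero {s t : ℝ} (h : 1 / 16 ≤ torus_nn s ^ 2 + torus_nn t ^ 2) :
    torus_a s t = 0 := by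
  unfold torus_a
  exact max_eq_left (by linarith)

theorem torus_a_zero_left {s t : ℝ} (h : 1 / 4 ≤ torus_nn s) : torus_a s t = 0 := by
  refine torus_a_zero ?_
  nlinarith [sq_nonneg (torus_nn t)]

theorem torus_a_zero_right {s t : ℝ} (h : 1 / 4 ≤ torus_nn t) : torus_a s t = 0 := by
  refine torus_a_zero ?_
  nlinarith [sq_nonneg (torus_nn s)]

theorem torus_w_one {s t : ℝ} (h : torus_a s t = 0) : torus_w s t = 1 := by
  unfold torus_w
  rw [h, if_neg (lt_irrefl _)]

theorem torus_a_per (s t : ℝ) (m m' : ℤ) : torus_a (s + m) (t + m') = torus_a s t := by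
  unfold torus_a
  rw [torus_nn_add_int, torus_nn_add_int]

theorem torus_w_per (s t : ℝ) (m m' : ℤ) : torus_w (s + m) (t + m') = torus_w s t := by
  unfold torus_w
  rw [torus_a_per, torus_T_add_int, torus_T_add_int]

/-! ## bounded Lipschitz functions -/

/-- bounded and Lipschitz -/
def torus_BL {n : ℕ} (f : (Ix n → ℝ) → ℂ) : Prop :=
  ∃ C : ℝ, 0 ≤ C ∧ (∀ x, ‖f x‖ ≤ C) ∧ ∀ x y, ‖f x - f y‖ ≤ C * ‖x - y‖

theorem torus_BL.const {n : ℕ} (c : ℂ) : torus_BL (n := n) (fun _ => c) :=
  ⟨‖c‖, norm_nonneg c, fun _ => le_rfl, fun x y => by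
    rw [sub_self, norm_zero]
    positivity⟩

theorem torus_BL.add {n : ℕ} {f g : (Ix n → ℝ) → ℂ} (hf : torus_BL f) (hg : torus_BL g) :
    torus_BL (fun x => f x + g x) := by
  obtain ⟨C, hC, h1, h2⟩ := hf
  obtain ⟨D, hD, h3, h4⟩ := hg
  refine ⟨C + D, by positivity, fun x => (norm_add_le _ _).trans (add_le_add (h1 x) (h3 x)),
    fun x y => ?_⟩
  have e : f x + g x - (f y + g y) = (f x - f y) + (g x - g y) := by ring
  rw [e, add_mul]
  exact (norm_add_le _ _).trans (add_le_add (h2 x y) (h4 x y))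

theorem torus_BL.mul {n : ℕ} {f g : (Ix n → ℝ) → ℂ} (hf : torus_BL f) (hg : torus_BL g) :
    torus_BL (fun x => f x * g x) := by
  obtain ⟨C, hC, h1, h2⟩ := hf
  obtain ⟨D, hD, h3, h4⟩ := hg
  refine ⟨2 * (C * D), by positivity, fun x => ?_, fun x y => ?_⟩
  · rw [norm_mul]
    have := mul_le_mul (h1 x) (h3 x) (norm_nonneg _) hC
    have h5 : 0 ≤ C * D := by positivity
    linarith
  · have e : f x * g x - f y * g y = f x * (g x - g y) + (f x - f y) * g y := by ring
    rw [e]
    refine (norm_add_le _ _).trans ?_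
    rw [norm_mul, norm_mul]
    have h5 := mul_le_mul (h1 x) (h4 x y) (norm_nonneg _) hC
    have h6 := mul_le_mul (h2 x y) (h3 y) (norm_nonneg _) (by positivity)
    calc ‖f x‖ * ‖g x - g y‖ + ‖f x - f y‖ * ‖g y‖
        ≤ C * (D * ‖x - y‖) + C * ‖x - y‖ * D := add_le_add h5 h6
      _ = 2 * (C * D) * ‖x - y‖ := by ring

theorem torus_BL.sum {n : ℕ} {κ : Type} (s : Finset κ) {f : κ → (Ix n → ℝ) → ℂ}
    (hf : ∀ k ∈ s, torus_BL (f k)) : torus_BL (fun x => ∑ k ∈ s, f k x) := by
  classical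
  induction s using Finset.induction_on with
  | empty => simpa using torus_BL.const (n := n) 0
  | insert a s ha ih =>
    have h := (hf a (Finset.mem_insert_self a s)).add
      (ih (fun k hk => hf k (Finset.mem_insert_of_mem hk)))
    refine (congrArg torus_BL ?_).mp h
    funext x
    rw [Finset.sum_insert ha]

theorem torus_BL.prod {n : ℕ} {κ : Type} (s : Finset κ) {f : κ → (Ix n → ℝ) → ℂ}
    (hf : ∀ k ∈ s, torus_BL (f k)) : torus_BL (fun x => ∏ k ∈ s, f k x) := by
  classical
  induction s using Finset.induction_on with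
  | empty => simpa using torus_BL.const (n := n) 1
  | insert a s ha ih =>
    have h := (hf a (Finset.mem_insert_self a s)).mul
      (ih (fun k hk => hf k (Finset.mem_insert_of_mem hk)))
    refine (congrArg torus_BL ?_).mp h
    funext x
    rw [Finset.prod_insert ha]

theorem torus_BL.conj {n : ℕ} {f : (Ix n → ℝ) → ℂ} (hf : torus_BL f) :
    torus_BL (fun x => (starRingEnd ℂ) (f x)) := by
  obtain ⟨C, hC, h1, h2⟩ := hf
  refine ⟨C, hC, fun x => ?_, fun x y => ?_⟩
  · rw [Complex.norm_conj]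
    exact h1 x
  · rw [← map_sub, Complex.norm_conj]
    exact h2 x y

theorem torus_BL.inv {n : ℕ} {f : (Ix n → ℝ) → ℂ} (hf : torus_BL f) {c : ℝ} (hc : 0 < c)
    (h : ∀ x, c ≤ ‖f x‖) : torus_BL (fun x => (f x)⁻¹) := by
  obtain ⟨C, hC, h1, h2⟩ := hf
  have hne : ∀ x, f x ≠ 0 := fun x h0 => by
    have := h x
    rw [h0, norm_zero] at this
    linarith
  refine ⟨1 / c + C / c ^ 2, by positivity, fun x => ?_, fun x y => ?_⟩
  · rw [norm_inv, ← one_div]
    have h3 : 1 / ‖f x‖ ≤ 1 / c := one_div_le_one_div_of_le hc (h x)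
    have h4 : 0 ≤ C / c ^ 2 := by positivity
    linarith
  · rw [inv_sub_inv (hne x) (hne y), norm_div, norm_mul]
    have h3 : c ^ 2 ≤ ‖f x‖ * ‖f y‖ := by
      rw [sq]
      exact mul_le_mul (h x) (h y) hc.le (norm_nonneg _)
    have h4 : ‖f y - f x‖ ≤ C * ‖x - y‖ := by
      rw [norm_sub_rev]
      exact h2 x y
    calc ‖f y - f x‖ / (‖f x‖ * ‖f y‖) ≤ (C * ‖x - y‖) / c ^ 2 :=
          div_le_div₀ (by positivity) h4 (by positivity) h3
      _ = C / c ^ 2 * ‖x - y‖ := by ring
      _ ≤ (1 / c + C / c ^ 2) * ‖x - y‖ := by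
          refine mul_le_mul_of_nonneg_right ?_ (norm_nonneg _)
          have : 0 ≤ 1 / c := by positivity
          linarith

theorem torus_coord {n : ℕ} (x y : Ix n → ℝ) (μ : Ix n) : |x μ - y μ| ≤ ‖x - y‖ := by
  have := norm_le_pi_norm (x - y) μ
  rwa [Pi.sub_apply, Real.norm_eq_abs] at this

theorem torus_BL_a {n : ℕ} (μ ν : Ix n) :
    torus_BL (fun x : Ix n → ℝ => (torus_a (x μ) (x ν) : ℂ)) := by
  refine ⟨32, by norm_num, fun x => ?_, fun x y => ?_⟩
  · rw [Complex.norm_real, Real.norm_eq_abs, abs_of_nonneg (torus_a_nonneg _ _)]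
    have := torus_a_le (x μ) (x ν)
    linarith
  · rw [← Complex.ofReal_sub, Complex.norm_real, Real.norm_eq_abs]
    have h1 := torus_a_lip (x μ) (x ν) (y μ) (y ν)
    have h2 := torus_coord x y μ
    have h3 := torus_coord x y ν
    linarith

theorem torus_BL_T {n : ℕ} (μ : Ix n) :
    torus_BL (fun x : Ix n → ℝ => (torus_T (x μ) : ℂ)) := by
  refine ⟨1, by norm_num, fun x => ?_, fun x y => ?_⟩
  · rw [Complex.norm_real, Real.norm_eq_abs]
    exact torus_T_bdd _
  · rw [← Complex.ofReal_sub, Complex.norm_real, Real.norm_eq_abs]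
    have h1 := torus_T_lip (x μ) (y μ)
    have h2 := torus_coord x y μ
    linarith

/-! ## the family -/

/-- the two coordinates at the `i`-th factor -/
noncomputable def torus_v {n : ℕ} (x : Ix n → ℝ) (i : Fin n) (b : Prop) [Decidable b] : ℂ :=
  if b then torus_w (x (some (i, false))) (x (some (i, true)))
  else (torus_a (x (some (i, false))) (x (some (i, true))) : ℂ)

theorem torus_BL_v {n : ℕ} (i : Fin n) (b c : Prop) [Decidable b] [Decidable c] :
    torus_BL (fun x => torus_v x i b * (starRingEnd ℂ) (torus_v x i c)) := by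
  have hA := torus_BL_a (n := n) (some (i, false)) (some (i, true))
  have hW : torus_BL (fun x : Ix n → ℝ => (torus_a (x (some (i, false))) (x (some (i, true))) : ℂ) *
      torus_w (x (some (i, false))) (x (some (i, true)))) := by
    have h := ((torus_BL.const 4).mul hA).mul ((torus_BL_T (n := n) (some (i, false))).add
      ((torus_BL_T (n := n) (some (i, true))).mul (torus_BL.const Complex.I)))
    refine (congrArg torus_BL ?_).mp h
    funext x
    rw [torus_aw]
  unfold torus_v
  by_cases hb : b <;> by_cases hc : c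
  · simp only [if_pos hb, if_pos hc]
    have h := (torus_BL.const 1).add ((torus_BL.const (-1)).mul hA)
    refine (congrArg torus_BL ?_).mp h
    funext x
    rw [torus_ww]
    push_cast
    ring
  · simp only [if_pos hb, if_neg hc]
    refine (congrArg torus_BL ?_).mp hW
    funext x
    rw [Complex.conj_ofReal, mul_comm]
  · simp only [if_neg hb, if_pos hc]
    refine (congrArg torus_BL ?_).mp hW.conj
    funext x
    rw [map_mul, Complex.conj_ofReal]
  · simp only [if_neg hb, if_neg hc]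
    exact hA.mul hA.conj

/-- the coefficients of the product polynomial -/
noncomputable def torus_u {n : ℕ} (x : Ix n → ℝ) (k : Fin (n + 1)) : ℂ :=
  ∑ S : Finset (Fin n), if S.card = k then ∏ i, torus_v x i (i ∈ S) else 0

theorem torus_BL_uu {n : ℕ} (k l : Fin (n + 1)) :
    torus_BL (fun x => torus_u x k * (starRingEnd ℂ) (torus_u x l)) := by
  have h1 : ∀ S T : Finset (Fin n), torus_BL (fun x =>
      (if S.card = k then ∏ i, torus_v x i (i ∈ S) else 0) *
        (starRingEnd ℂ) (if T.card = l then ∏ i, torus_v x i (i ∈ T) else 0)) := by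
    intro S T
    by_cases hS : S.card = k
    · by_cases hT : T.card = l
      · simp only [if_pos hS, if_pos hT]
        have h := torus_BL.prod (n := n) Finset.univ
          (f := fun i x => torus_v x i (i ∈ S) * (starRingEnd ℂ) (torus_v x i (i ∈ T)))
          (fun i _ => torus_BL_v i _ _)
        refine (congrArg torus_BL ?_).mp h
        funext x
        rw [Finset.prod_mul_distrib, map_prod]
      · simp only [if_neg hT, map_zero, mul_zero]
        exact torus_BL.const 0
    · simp only [if_neg hS, zero_mul]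
      exact torus_BL.const 0
  have h2 := torus_BL.sum (n := n) (κ := Finset (Fin n)) Finset.univ
      (f := fun S x => ∑ T : Finset (Fin n),
      (if S.card = (k : ℕ) then ∏ i, torus_v x i (i ∈ S) else 0) *
        (starRingEnd ℂ) (if T.card = (l : ℕ) then ∏ i, torus_v x i (i ∈ T) else 0))
      (fun S _ => torus_BL.sum Finset.univ (fun T _ => h1 S T))
  refine (congrArg torus_BL ?_).mp h2
  funext x
  unfold torus_u
  rw [map_sum, Finset.sum_mul_sum]

/-- the vector does not vanish -/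
theorem torus_u_ne {n : ℕ} (x : Ix n → ℝ) : ∃ k, torus_u x k ≠ 0 := by
  classical
  by_contra hcon
  push Not at hcon
  have hne : ∏ i : Fin n, (Polynomial.C (torus_v x i True) * Polynomial.X +
      Polynomial.C (torus_v x i False)) ≠ 0 := by
    rw [Finset.prod_ne_zero_iff]
    intro i _ h0
    have h1 := congrArg (fun P : Polynomial ℂ => P.coeff 0) h0
    have h2 := congrArg (fun P : Polynomial ℂ => P.coeff 1) h0
    simp [Polynomial.coeff_C] at h1 h2
    unfold torus_v at h1 h2
    simp only [if_true, if_false] at h1 h2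
    rcases torus_aw_ne (x (some (i, false))) (x (some (i, true))) with h3 | h3
    · exact h3 (by exact_mod_cast h1)
    · exact h3 h2
  apply hne
  rw [Finset.prod_add]
  have hterm : ∀ S : Finset (Fin n), (∏ i ∈ S, Polynomial.C (torus_v x i True) * Polynomial.X) *
      ∏ i ∈ Finset.univ \ S, Polynomial.C (torus_v x i False) =
      Polynomial.C (∏ i, torus_v x i (i ∈ S)) * Polynomial.X ^ S.card := by
    intro S
    rw [Finset.prod_mul_distrib, Finset.prod_const, ← map_prod, ← map_prod,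
      ← Finset.prod_sdiff (Finset.subset_univ S) (f := fun i => torus_v x i (i ∈ S)), map_mul]
    have e1 : ∏ i ∈ Finset.univ \ S, torus_v x i (i ∈ S) =
        ∏ i ∈ Finset.univ \ S, torus_v x i False := by
      refine Finset.prod_congr rfl (fun i hi => ?_)
      unfold torus_v
      rw [if_neg (Finset.mem_sdiff.1 hi).2, if_neg not_false]
    have e2 : ∏ i ∈ S, torus_v x i (i ∈ S) = ∏ i ∈ S, torus_v x i True := by
      refine Finset.prod_congr rfl (fun i hi => ?_)
      unfold torus_v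
      rw [if_pos hi, if_pos trivial]
    rw [e1, e2]
    ring
  rw [Finset.sum_congr rfl (fun S _ => hterm S), Finset.powerset_univ]
  ext k
  rw [Polynomial.finsetSum_coeff, Polynomial.coeff_zero]
  simp only [Polynomial.coeff_C_mul, Polynomial.coeff_X_pow, mul_ite, mul_one, mul_zero]
  by_cases hk : k < n + 1
  · have h := hcon ⟨k, hk⟩
    unfold torus_u at h
    refine Eq.trans (Finset.sum_congr rfl (fun S _ => ?_)) h
    by_cases hS : S.card = k
    · rw [if_pos hS.symm, if_pos hS]
    · rw [if_neg (fun h' => hS h'.symm), if_neg hS]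
  · refine Finset.sum_eq_zero (fun S _ => ?_)
    rw [if_neg]
    have := Finset.card_le_univ S
    rw [Fintype.card_fin] at this
    omega

/-- the squared length -/
noncomputable def torus_N {n : ℕ} (x : Ix n → ℝ) : ℝ := ∑ k, ‖torus_u x k‖ ^ 2

theorem torus_N_pos {n : ℕ} (x : Ix n → ℝ) : 0 < torus_N x := by
  obtain ⟨k, hk⟩ := torus_u_ne x
  have h1 : 0 < ‖torus_u x k‖ ^ 2 := by
    have := norm_pos_iff.2 hk
    positivity
  refine lt_of_lt_of_le h1 ?_
  exact Finset.single_le_sum (f := fun k => ‖torus_u x k‖ ^ 2) (fun i _ => sq_nonneg _)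
    (Finset.mem_univ k)

theorem torus_N_eq {n : ℕ} (x : Ix n → ℝ) :
    (torus_N x : ℂ) = ∑ k, torus_u x k * (starRingEnd ℂ) (torus_u x k) := by
  unfold torus_N
  push_cast
  refine Finset.sum_congr rfl (fun k _ => ?_)
  rw [Complex.mul_conj, Complex.normSq_eq_norm_sq]
  push_cast
  rfl

theorem torus_BL_N {n : ℕ} : torus_BL (fun x : Ix n → ℝ => (torus_N x : ℂ)) := by
  have h := torus_BL.sum (n := n) Finset.univ
    (f := fun k x => torus_u x k * (starRingEnd ℂ) (torus_u x k)) (fun k _ => torus_BL_uu k k)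
  refine (congrArg torus_BL ?_).mp h
  funext x
  rw [torus_N_eq]

theorem torus_u_congr {n : ℕ} {x y : Ix n → ℝ}
    (h : ∀ i, torus_a (x (some (i, false))) (x (some (i, true))) =
        torus_a (y (some (i, false))) (y (some (i, true))) ∧
      torus_w (x (some (i, false))) (x (some (i, true))) =
        torus_w (y (some (i, false))) (y (some (i, true)))) : torus_u x = torus_u y := by
  funext k
  unfold torus_u
  refine Finset.sum_congr rfl (fun S _ => ?_)
  have e : ∀ i, torus_v x i (i ∈ S) = torus_v y i (i ∈ S) := by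
    intro i
    unfold torus_v
    rw [(h i).1, (h i).2]
  rw [Finset.prod_congr rfl (fun i _ => e i)]

theorem torus_u_int {n : ℕ} (x : Ix n → ℝ) (m : Ix n → ℤ) :
    torus_u (fun μ => x μ + m μ) = torus_u x :=
  torus_u_congr (fun _ => ⟨torus_a_per _ _ _ _, torus_w_per _ _ _ _⟩)

theorem torus_u_perm {n : ℕ} (σ : Equiv.Perm (Fin n)) (x : Ix n → ℝ) :
    torus_u (x ∘ sI σ) = torus_u x := by
  funext k
  unfold torus_u
  have hv : ∀ i (b : Prop) [Decidable b], torus_v (x ∘ sI σ) i b = torus_v x (σ i) b := by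
    intro _ _ _
    rfl
  have hsum := (Equiv.finsetCongr σ).sum_comp
    (fun S : Finset (Fin n) => if S.card = (k : ℕ) then ∏ i, torus_v x i (i ∈ S) else 0)
  rw [← hsum]
  refine Finset.sum_congr rfl (fun S _ => ?_)
  have hc : (Equiv.finsetCongr σ S).card = S.card := by
    rw [Equiv.finsetCongr_apply, Finset.card_map]
  have hp : ∏ i, torus_v (x ∘ sI σ) i (i ∈ S) =
      ∏ i, torus_v x i (i ∈ Equiv.finsetCongr σ S) := by
    rw [← Equiv.prod_comp σ (fun i => torus_v x i (i ∈ Equiv.finsetCongr σ S))]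
    refine Finset.prod_congr rfl (fun i _ => ?_)
    rw [hv]
    have hm : (σ i ∈ Equiv.finsetCongr σ S) ↔ i ∈ S := by
      rw [Equiv.finsetCongr_apply]
      exact Finset.mem_map' _
    unfold torus_v
    by_cases h : i ∈ S
    · rw [if_pos h, if_pos (hm.2 h)]
    · rw [if_neg h, if_neg (fun h' => h (hm.1 h'))]
  rw [hc, hp]

/-- the squared length is bounded below -/
theorem torus_N_low (n : ℕ) : ∃ c : ℝ, 0 < c ∧ ∀ x : Ix n → ℝ, c ≤ torus_N x := by
  obtain ⟨C, hC, -, h2⟩ := torus_BL_N (n := n)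
  have hcont : Continuous (fun x : Ix n → ℝ => torus_N x) := by
    have hl : LipschitzWith ⟨C, hC⟩ (fun x : Ix n → ℝ => (torus_N x : ℂ)) := by
      refine LipschitzWith.of_dist_le_mul (fun x y => ?_)
      rw [dist_eq_norm, dist_eq_norm]
      exact h2 x y
    exact Complex.continuous_re.comp hl.continuous
  obtain ⟨x0, -, hx0⟩ := (isCompact_Icc (a := (0 : Ix n → ℝ)) (b := 1)).exists_isMinOn
    ⟨0, by simp⟩ hcont.continuousOn
  refine ⟨torus_N x0, torus_N_pos x0, fun x => ?_⟩
  have hf : (fun μ => Int.fract (x μ)) ∈ Set.Icc (0 : Ix n → ℝ) 1 :=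
    ⟨fun μ => Int.fract_nonneg _, fun μ => (Int.fract_lt_one _).le⟩
  have h1 : torus_N x0 ≤ torus_N (fun μ => Int.fract (x μ)) := hx0 hf
  have h3 : torus_u x = torus_u (fun μ => Int.fract (x μ)) := by
    have := torus_u_int (fun μ => Int.fract (x μ)) (fun μ => ⌊x μ⌋)
    rw [← this]
    congr 1
    funext μ
    exact (Int.fract_add_floor (x μ)).symm
  have h4 : torus_N x = torus_N (fun μ => Int.fract (x μ)) := by
    unfold torus_N
    rw [h3]
  rw [h4]
  exact h1

/-- the rank one projection as a matrix -/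
noncomputable def torus_p {n : ℕ} (x : Ix n → ℝ) : Matrix (Fin (n + 1)) (Fin (n + 1)) ℂ :=
  (torus_N x : ℂ)⁻¹ • Matrix.vecMulVec (torus_u x) (star (torus_u x))

theorem torus_star_dot {n : ℕ} (x : Ix n → ℝ) :
    star (torus_u x) ⬝ᵥ torus_u x = (torus_N x : ℂ) := by
  rw [torus_N_eq]
  refine Finset.sum_congr rfl (fun k _ => ?_)
  rw [mul_comm]
  rfl

theorem torus_p_mul {n : ℕ} (x : Ix n → ℝ) : torus_p x * torus_p x = torus_p x := by
  have hN : (torus_N x : ℂ) ≠ 0 := by exact_mod_cast (torus_N_pos x).ne'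
  unfold torus_p
  rw [Matrix.smul_mul, Matrix.mul_smul, Matrix.vecMulVec_mul_vecMulVec, torus_star_dot,
    Matrix.vecMulVec_smul, smul_smul, smul_smul]
  congr 1
  field_simp

theorem torus_p_star {n : ℕ} (x : Ix n → ℝ) : star (torus_p x) = torus_p x := by
  unfold torus_p
  rw [star_smul, Matrix.star_eq_conjTranspose, Matrix.conjTranspose_vecMulVec, star_star]
  congr 1
  rw [star_inv₀]
  congr 1
  exact Complex.conj_ofReal _

/-- matrices as operators -/
noncomputable abbrev torus_E (n : ℕ) : Matrix (Fin (n + 1)) (Fin (n + 1)) ℂ ≃⋆ₐ[ℂ] M (n + 1) :=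
  Matrix.toEuclideanCLM (n := Fin (n + 1)) (𝕜 := ℂ)

/-- the family -/
noncomputable def torus_pi {n : ℕ} (x : Ix n → ℝ) : M (n + 1) := torus_E n (1 - torus_p x)

theorem torus_pi_congr {n : ℕ} {x y : Ix n → ℝ} (h : torus_u x = torus_u y) :
    torus_pi x = torus_pi y := by
  unfold torus_pi torus_p torus_N
  rw [h]

theorem torus_pi_apply {n : ℕ} (x : Ix n → ℝ) (y : E (n + 1)) :
    torus_pi x y = y - ((torus_N x : ℂ)⁻¹ * inner ℂ (WithLp.toLp 2 (torus_u x) : E (n + 1)) y) •
      (WithLp.toLp 2 (torus_u x) : E (n + 1)) := by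
  have h1 : torus_pi x = 1 - torus_E n (torus_p x) := by
    unfold torus_pi
    rw [map_sub, map_one]
  rw [h1]
  change y - torus_E n (torus_p x) y = _
  congr 1
  refine WithLp.ofLp_injective 2 ?_
  rw [Matrix.ofLp_toEuclideanCLM]
  unfold torus_p
  rw [Matrix.smul_mulVec, Matrix.vecMulVec_mulVec, WithLp.ofLp_smul, mul_smul]
  congr 1
  rw [op_smul_eq_smul, EuclideanSpace.inner_eq_star_dotProduct, dotProduct_comm]

theorem torus_proj {n : ℕ} (x : Ix n → ℝ) : HypProj (torus_pi x) := by
  have hN : (torus_N x : ℂ) ≠ 0 := by exact_mod_cast (torus_N_pos x).ne'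
  set U : E (n + 1) := WithLp.toLp 2 (torus_u x) with hU
  have hUU : inner ℂ U U = (torus_N x : ℂ) := by
    rw [EuclideanSpace.inner_eq_star_dotProduct, dotProduct_comm]
    exact torus_star_dot x
  refine ⟨?_, ?_, innerSL ℂ U, ?_, ?_⟩
  · unfold torus_pi
    rw [← map_mul]
    congr 1
    rw [mul_sub, sub_mul, sub_mul, torus_p_mul]
    simp
  · unfold torus_pi
    rw [← map_star]
    congr 1
    rw [star_sub, star_one, torus_p_star]
  · intro h
    have h1 : innerSL ℂ U U = 0 := by
      rw [h]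
      rfl
    rw [innerSL_apply_apply, hUU] at h1
    exact hN h1
  · ext y
    constructor
    · rintro ⟨w, rfl⟩
      change innerSL ℂ U (torus_pi x w) = 0
      rw [torus_pi_apply, innerSL_apply_apply, inner_sub_right, inner_smul_right, ← hU, hUU]
      field_simp
      ring
    · intro h
      change innerSL ℂ U y = 0 at h
      rw [innerSL_apply_apply] at h
      refine ⟨y, ?_⟩
      change torus_pi x y = y
      rw [torus_pi_apply, ← hU, h]
      simp

theorem torus_lip (n : ℕ) : ∃ C, LipschitzWith C (torus_pi (n := n)) := by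
  obtain ⟨c, hc, hN⟩ := torus_N_low n
  have hinv : torus_BL (fun x : Ix n → ℝ => (torus_N x : ℂ)⁻¹) := by
    refine torus_BL_N.inv hc (fun x => ?_)
    rw [Complex.norm_real, Real.norm_eq_abs]
    exact (hN x).trans (le_abs_self _)
  have hp : ∀ k l : Fin (n + 1), torus_BL (fun x : Ix n → ℝ => torus_p x k l) := by
    intro k l
    refine (congrArg torus_BL ?_).mp (hinv.mul (torus_BL_uu k l))
    funext x
    rfl
  choose D hD hD1 hD2 using hp
  set K : ℝ := ∑ k, ∑ l, D k l * ‖torus_E n (Matrix.single k l 1)‖ with hK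
  have hK0 : 0 ≤ K := Finset.sum_nonneg (fun k _ => Finset.sum_nonneg (fun l _ =>
    mul_nonneg (hD k l) (norm_nonneg _)))
  refine ⟨⟨K, hK0⟩, LipschitzWith.of_dist_le_mul (fun x y => ?_)⟩
  rw [dist_eq_norm, dist_eq_norm]
  have e1 : torus_pi x - torus_pi y = ∑ k, ∑ l, (torus_p y k l - torus_p x k l) •
      torus_E n (Matrix.single k l 1) := by
    unfold torus_pi
    rw [← map_sub, sub_sub_sub_cancel_left]
    conv_lhs => rw [Matrix.matrix_eq_sum_single (torus_p y - torus_p x)]
    rw [map_sum]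
    refine Finset.sum_congr rfl (fun k _ => ?_)
    rw [map_sum]
    refine Finset.sum_congr rfl (fun l _ => ?_)
    rw [← map_smul, Matrix.smul_single, smul_eq_mul, mul_one]
    rfl
  rw [e1]
  refine (norm_sum_le _ _).trans ?_
  change _ ≤ K * ‖x - y‖
  rw [hK, Finset.sum_mul]
  refine Finset.sum_le_sum (fun k _ => (norm_sum_le _ _).trans ?_)
  rw [Finset.sum_mul]
  refine Finset.sum_le_sum (fun l _ => ?_)
  rw [norm_smul]
  have h := hD2 k l y x
  rw [norm_sub_rev y x] at h
  calc ‖torus_p y k l - torus_p x k l‖ * ‖torus_E n (Matrix.single k l 1)‖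
      ≤ (D k l * ‖x - y‖) * ‖torus_E n (Matrix.single k l 1)‖ :=
        mul_le_mul_of_nonneg_right h (norm_nonneg _)
    _ = _ := by ring

theorem torus_per {n : ℕ} (x : Ix n → ℝ) (μ : Ix n) :
    torus_pi (x + Pi.single μ 1) = torus_pi x := by
  refine torus_pi_congr ?_
  rw [← torus_u_int x (Pi.single μ 1)]
  congr 1
  funext ν
  rw [Pi.add_apply]
  congr 1
  by_cases h : ν = μ
  · subst h
    rw [Pi.single_eq_same, Pi.single_eq_same, Int.cast_one]
  · rw [Pi.single_eq_of_ne h, Pi.single_eq_of_ne h, Int.cast_zero]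

theorem torus_tin {n : ℕ} (x : Ix n → ℝ) (s : ℝ) :
    torus_pi (Function.update x none s) = torus_pi x := by
  refine torus_pi_congr (torus_u_congr (fun i => ?_))
  rw [Function.update_of_ne (by simp), Function.update_of_ne (by simp)]
  exact ⟨rfl, rfl⟩

theorem torus_stripT {n : ℕ} (x : Ix n → ℝ) (i : Fin n) (b : Bool) (s : ℝ)
    (h : inStrip (x (some (i, !b)))) :
    torus_pi (Function.update x (some (i, b)) s) = torus_pi x := by
  refine torus_pi_congr (torus_u_congr (fun j => ?_))
  by_cases hj : j = i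
  · subst hj
    have h1 := torus_strip h
    cases b
    · rw [Function.update_self, Function.update_of_ne (by simp)]
      have e1 := torus_a_zero_right (s := s) h1
      have e2 := torus_a_zero_right (s := x (some (j, false))) h1
      simp only [Bool.not_false] at e1 e2
      rw [torus_w_one e1, torus_w_one e2, e1, e2]
      exact ⟨rfl, rfl⟩
    · rw [Function.update_self, Function.update_of_ne (by simp)]
      have e1 := torus_a_zero_left (t := s) h1
      have e2 := torus_a_zero_left (t := x (some (j, true))) h1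
      simp only [Bool.not_true] at e1 e2
      rw [torus_w_one e1, torus_w_one e2, e1, e2]
      exact ⟨rfl, rfl⟩
  · rw [Function.update_of_ne (by simp [hj]), Function.update_of_ne (by simp [hj])]
    exact ⟨rfl, rfl⟩

/-! ## the curvature function -/

/-- the curvature as a function of two real variables -/
noncomputable def torus_G (s t : ℝ) : ℝ :=
  32 * torus_a s t * (2 - torus_a s t) / (torus_a s t ^ 2 + 1 - torus_a s t) ^ 2

theorem torus_den (a : ℝ) : 3 / 4 ≤ a ^ 2 + 1 - a := by nlinarith [sq_nonneg (a - 1 / 2)]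

theorem torus_nn_cont : Continuous torus_nn := by
  have hl : LipschitzWith 1 torus_nn := by
    refine LipschitzWith.of_dist_le_mul (fun x y => ?_)
    rw [Real.dist_eq, Real.dist_eq, NNReal.coe_one, one_mul]
    exact torus_nn_lip x y
  exact hl.continuous

theorem torus_a_cont : Continuous (fun p : ℝ × ℝ => torus_a p.1 p.2) := by
  unfold torus_a
  have h1 : Continuous (fun p : ℝ × ℝ => torus_nn p.1) := torus_nn_cont.comp continuous_fst
  have h2 : Continuous (fun p : ℝ × ℝ => torus_nn p.2) := torus_nn_cont.comp continuous_snd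
  exact continuous_const.max (continuous_const.sub (continuous_const.mul ((h1.pow 2).add (h2.pow 2))))

theorem torus_G_cont : Continuous (Function.uncurry torus_G) := by
  have h := torus_a_cont
  have e : Function.uncurry torus_G = fun p : ℝ × ℝ =>
    32 * torus_a p.1 p.2 * (2 - torus_a p.1 p.2) /
      (torus_a p.1 p.2 ^ 2 + 1 - torus_a p.1 p.2) ^ 2 := rfl
  rw [e]
  refine ((continuous_const.mul h).mul (continuous_const.sub h)).div
    ((((h.pow 2).add continuous_const).sub h).pow 2) (fun p => ?_)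
  have := torus_den (torus_a p.1 p.2)
  positivity

theorem torus_G_nonneg (s t : ℝ) : 0 ≤ torus_G s t := by
  unfold torus_G
  have h1 := torus_a_nonneg s t
  have h2 := torus_a_le s t
  have h3 : 0 ≤ 2 - torus_a s t := by linarith
  positivity

theorem torus_G_bdd (s t : ℝ) : |torus_G s t| ≤ 128 := by
  rw [abs_of_nonneg (torus_G_nonneg s t)]
  unfold torus_G
  have h1 := torus_a_nonneg s t
  have h2 := torus_a_le s t
  have h3 := torus_den (torus_a s t)
  rw [div_le_iff₀ (by positivity)]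
  nlinarith

theorem torus_pos_gen (G : ℝ → ℝ → ℝ) (hc : Continuous (Function.uncurry G))
    (hn : ∀ s t, 0 ≤ G s t) (h0 : 0 < G 0 0) :
    0 < ∫ s in (0 : ℝ)..1, ∫ t in (0 : ℝ)..1, G s t := by
  have hc1 : Continuous (fun t => G 0 t) := hc.comp (continuous_const.prodMk continuous_id)
  have hc2 : Continuous (fun s => ∫ t in (0 : ℝ)..1, G s t) :=
    intervalIntegral.continuous_parametric_intervalIntegral_of_continuous' hc 0 1
  refine intervalIntegral.integral_pos zero_lt_one hc2.continuousOn (fun s _ => ?_) ⟨0, by simp, ?_⟩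
  · exact intervalIntegral.integral_nonneg zero_le_one (fun t _ => hn s t)
  · exact intervalIntegral.integral_pos zero_lt_one hc1.continuousOn
      (fun t _ => hn 0 t) ⟨0, by simp, h0⟩

theorem torus_G_pos : 0 < ∫ s in (0 : ℝ)..1, ∫ t in (0 : ℝ)..1, torus_G s t := by
  refine torus_pos_gen torus_G torus_G_cont torus_G_nonneg ?_
  have h0 : torus_nn 0 = 0 := by
    unfold torus_nn
    simp
  have ha : torus_a 0 0 = 1 := by
    unfold torus_a
    rw [h0]
    norm_num
  unfold torus_G
  rw [ha]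
  norm_num

/-! ## the points where the real coordinate vanishes -/

theorem torus_dir {s t : ℝ} (h : torus_a s t = 0) : ∃ ε : ℝ, (ε = 1 ∨ ε = -1) ∧
    ∀ r ∈ Set.Icc (0 : ℝ) (1 / 4), torus_a (s + ε * r) t = 0 := by
  have h0 : 1 / 16 ≤ torus_nn s ^ 2 + torus_nn t ^ 2 := by
    unfold torus_a at h
    have := le_max_right 0 (1 - 16 * (torus_nn s ^ 2 + torus_nn t ^ 2))
    rw [h] at this
    linarith
  have key : ∀ ε : ℝ, (ε = 1 ∨ ε = -1) → s - round s = ε * torus_nn s →
      ∀ r ∈ Set.Icc (0 : ℝ) (1 / 4), torus_a (s + ε * r) t = 0 := by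
    rintro ε hε hs r ⟨hr0, hr1⟩
    have hεa : |ε| = 1 := by
      rcases hε with rfl | rfl <;> simp
    have hn := torus_nn_half s
    have hn0 := torus_nn_nonneg s
    have h2 : min (torus_nn s) (1 / 4) ≤ torus_nn (s + ε * r) := by
      refine torus_nn_ge (fun k => ?_)
      have e1 : s + ε * r - k = ε * (torus_nn s + r) + ((round s : ℝ) - k) := by
        have : s = round s + ε * torus_nn s := by linarith
        linear_combination this
      rcases eq_or_ne k (round s) with hk | hk
      · rw [e1, hk, sub_self, add_zero, abs_mul, hεa, one_mul, abs_of_nonneg (by linarith)]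
        exact (min_le_left _ _).trans (by linarith)
      · have h3 : (1 : ℝ) ≤ |(round s : ℝ) - k| := by
          have h4 : (1 : ℤ) ≤ |round s - k| := Int.one_le_abs (sub_ne_zero.2 hk.symm)
          exact_mod_cast h4
        have h5 : |(round s : ℝ) - k| ≤ |s + ε * r - k| + |ε * (torus_nn s + r)| := by
          have : (round s : ℝ) - k = (s + ε * r - k) - ε * (torus_nn s + r) := by
            rw [e1]
            ring
          rw [this]
          exact abs_sub _ _
        rw [abs_mul, hεa, one_mul, abs_of_nonneg (by linarith : 0 ≤ torus_nn s + r)] at h5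
        exact (min_le_right _ _).trans (by linarith)
    rcases le_total (torus_nn s) (1 / 4) with h6 | h6
    · rw [min_eq_left h6] at h2
      refine torus_a_zero ?_
      nlinarith
    · rw [min_eq_right h6] at h2
      exact torus_a_zero_left h2
  rcases abs_cases (s - round s) with ⟨h1, h2⟩ | ⟨h1, h2⟩
  · refine ⟨1, Or.inl rfl, key 1 (Or.inl rfl) ?_⟩
    unfold torus_nn
    rw [h1, one_mul]
  · refine ⟨-1, Or.inr rfl, key (-1) (Or.inr rfl) ?_⟩
    unfold torus_nn
    rw [h1]
    ring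

theorem torus_ext {n : ℕ} (x : Ix n → ℝ) (i : Fin n)
    (h : torus_a (x (some (i, false))) (x (some (i, true))) = 0) :
    pd (torus_pi (n := n)) x (some (i, false)) = 0 := by
  unfold pd
  by_cases hd : DifferentiableAt ℝ (torus_pi (n := n)) x
  swap
  · rw [fderiv_zero_of_not_differentiableAt hd]
    rfl
  obtain ⟨ε, hε, hr⟩ := torus_dir h
  set e : Ix n → ℝ := Pi.single (some (i, false)) 1 with he
  have hconst : ∀ r ∈ Set.Icc (0 : ℝ) (1 / 4), torus_pi (x + (ε * r) • e) = torus_pi x := by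
    intro r hr'
    refine torus_pi_congr (torus_u_congr (fun j => ?_))
    by_cases hj : j = i
    · subst hj
      have e1 : (x + (ε * r) • e) (some (j, false)) = x (some (j, false)) + ε * r := by
        rw [Pi.add_apply, Pi.smul_apply, he, Pi.single_eq_same, smul_eq_mul, mul_one]
      have e2 : (x + (ε * r) • e) (some (j, true)) = x (some (j, true)) := by
        rw [Pi.add_apply, Pi.smul_apply, he, Pi.single_eq_of_ne (by simp), smul_zero, add_zero]
      rw [e1, e2, torus_w_one h, torus_w_one (hr r hr'), h, hr r hr']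
      exact ⟨rfl, rfl⟩
    · have e1 : ∀ b, (x + (ε * r) • e) (some (j, b)) = x (some (j, b)) := by
        intro b
        rw [Pi.add_apply, Pi.smul_apply, he, Pi.single_eq_of_ne (by simp [hj]), smul_zero, add_zero]
      rw [e1, e1]
      exact ⟨rfl, rfl⟩
  have hl : HasDerivAt (fun r : ℝ => x + (ε * r) • e) (ε • e) 0 := by
    have h1 : HasDerivAt (fun r : ℝ => ε * r) ε 0 := by
      simpa using (hasDerivAt_id (0 : ℝ)).const_mul ε
    exact (h1.smul_const e).const_add x
  have hx : x + (ε * 0) • e = x := by rw [mul_zero, zero_smul, add_zero]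
  have hd' : HasFDerivAt (torus_pi (n := n)) (fderiv ℝ torus_pi x) (x + (ε * 0) • e) := by
    rw [hx]
    exact hd.hasFDerivAt
  have h1 : HasDerivAt (fun r : ℝ => torus_pi (x + (ε * r) • e)) (fderiv ℝ torus_pi x (ε • e)) 0 :=
    HasFDerivAt.comp_hasDerivAt (l := torus_pi (n := n)) (0 : ℝ) hd' hl
  have h2 : HasDerivWithinAt (fun r : ℝ => torus_pi (x + (ε * r) • e)) 0
      (Set.Icc (0 : ℝ) (1 / 4)) 0 := by
    refine (hasDerivWithinAt_const (0 : ℝ) (Set.Icc (0 : ℝ) (1 / 4)) (torus_pi x)).congr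
      hconst ?_
    exact hconst 0 (by simp)
  have h3 := UniqueDiffWithinAt.eq_deriv (Set.Icc (0 : ℝ) (1 / 4))
    (uniqueDiffOn_Icc (by norm_num : (0 : ℝ) < 1 / 4) 0 (by simp)) h1.hasDerivWithinAt h2
  rw [map_smul] at h3
  have hε0 : ε ≠ 0 := by
    rcases hε with rfl | rfl <;> norm_num
  exact (smul_eq_zero.1 h3).resolve_left hε0

/-! ## the points where the real coordinate is positive -/

/-- the matrix of a real combination -/
noncomputable def torus_Q (α β γ δ : ℝ) : Matrix (Fin 2) (Fin 2) ℂ :=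
  !![(α : ℂ), β - γ * Complex.I; β + γ * Complex.I, (δ : ℂ)]

theorem torus_tr (α β γ δ α1 β1 γ1 δ1 α2 β2 γ2 δ2 : ℝ) :
    ((-Complex.I) * Matrix.trace (torus_Q α β γ δ * (torus_Q α1 β1 γ1 δ1 * torus_Q α2 β2 γ2 δ2 -
      torus_Q α2 β2 γ2 δ2 * torus_Q α1 β1 γ1 δ1))).re =
    2 * (β * (γ1 * (α2 - δ2) - (α1 - δ1) * γ2) - γ * (β1 * (α2 - δ2) - (α1 - δ1) * β2) +
      (α - δ) * (β1 * γ2 - γ1 * β2)) := by
  unfold torus_Q
  rw [Matrix.trace_fin_two]
  simp [Matrix.mul_apply, Fin.sum_univ_two]
  ring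

theorem torus_scal (b g A D b1 g1 A1 D1 b2 g2 A2 D2 N N1 N2 : ℝ) (hN : N ≠ 0) :
    2 * (b / N * ((g1 * N - g * N1) / N ^ 2 * ((A2 * N - A * N2) / N ^ 2 -
        (D2 * N - D * N2) / N ^ 2) -
      ((A1 * N - A * N1) / N ^ 2 - (D1 * N - D * N1) / N ^ 2) * ((g2 * N - g * N2) / N ^ 2)) -
      g / N * ((b1 * N - b * N1) / N ^ 2 * ((A2 * N - A * N2) / N ^ 2 -
        (D2 * N - D * N2) / N ^ 2) -
      ((A1 * N - A * N1) / N ^ 2 - (D1 * N - D * N1) / N ^ 2) * ((b2 * N - b * N2) / N ^ 2)) +
      (A / N - D / N) * ((b1 * N - b * N1) / N ^ 2 * ((g2 * N - g * N2) / N ^ 2) -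
        (g1 * N - g * N1) / N ^ 2 * ((b2 * N - b * N2) / N ^ 2))) =
    2 * (b * (g1 * (A2 - D2) - (A1 - D1) * g2) - g * (b1 * (A2 - D2) - (A1 - D1) * b2) +
      (A - D) * (b1 * g2 - g1 * b2)) / N ^ 3 := by
  field_simp
  ring

theorem torus_poly (S T a : ℝ) (ha : a = 1 - 16 * (S ^ 2 + T ^ 2)) :
    4 * a * S * ((4 * (-32 * S) * T) * (2 * a * (-32 * T) - 32 * T) -
        (2 * a * (-32 * S) - 32 * S) * (4 * (-32 * T) * T + 4 * a)) -
      4 * a * T * ((4 * (-32 * S) * S + 4 * a) * (2 * a * (-32 * T) - 32 * T) -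
        (2 * a * (-32 * S) - 32 * S) * (4 * (-32 * T) * S)) +
      (a ^ 2 - (1 - a)) * ((4 * (-32 * S) * S + 4 * a) * (4 * (-32 * T) * T + 4 * a) -
        4 * (-32 * S) * T * (4 * (-32 * T) * S)) =
    16 * a * (2 - a) * (a ^ 2 + 1 - a) := by
  linear_combination (32 * a * (a ^ 2 + 1)) * ha

/-- derivative depending on two coordinates -/
def torus_HD {n : ℕ} (x : Ix n → ℝ) (μ ν : Ix n) (f : (Ix n → ℝ) → ℝ) (c d : ℝ) : Prop :=
  HasFDerivAt f (c • (ContinuousLinearMap.proj μ : (Ix n → ℝ) →L[ℝ] ℝ) +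
    d • (ContinuousLinearMap.proj ν : (Ix n → ℝ) →L[ℝ] ℝ)) x

theorem torus_HD.congr {n : ℕ} {x : Ix n → ℝ} {μ ν : Ix n} {f : (Ix n → ℝ) → ℝ} {c d c' d' : ℝ}
    (h : torus_HD x μ ν f c d) (hc : c = c') (hd : d = d') : torus_HD x μ ν f c' d' := by
  subst hc
  subst hd
  exact h

theorem torus_HD.const {n : ℕ} (x : Ix n → ℝ) (μ ν : Ix n) (r : ℝ) :
    torus_HD x μ ν (fun _ => r) 0 0 := by
  unfold torus_HD
  rw [zero_smul, zero_smul, add_zero]
  exact hasFDerivAt_const r x

theorem torus_HD.add {n : ℕ} {x : Ix n → ℝ} {μ ν : Ix n} {f g : (Ix n → ℝ) → ℝ} {c d c' d' : ℝ}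
    (h : torus_HD x μ ν f c d) (h' : torus_HD x μ ν g c' d') :
    torus_HD x μ ν (fun y => f y + g y) (c + c') (d + d') := by
  unfold torus_HD at h h' ⊢
  have e : (c + c') • (ContinuousLinearMap.proj μ : (Ix n → ℝ) →L[ℝ] ℝ) +
      (d + d') • (ContinuousLinearMap.proj ν : (Ix n → ℝ) →L[ℝ] ℝ) =
      (c • (ContinuousLinearMap.proj μ : (Ix n → ℝ) →L[ℝ] ℝ) +
        d • (ContinuousLinearMap.proj ν : (Ix n → ℝ) →L[ℝ] ℝ)) +
      (c' • (ContinuousLinearMap.proj μ : (Ix n → ℝ) →L[ℝ] ℝ) +
        d' • (ContinuousLinearMap.proj ν : (Ix n → ℝ) →L[ℝ] ℝ)) := by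
    rw [add_smul, add_smul]
    abel
  rw [e]
  exact h.add h'

theorem torus_HD.mul {n : ℕ} {x : Ix n → ℝ} {μ ν : Ix n} {f g : (Ix n → ℝ) → ℝ} {c d c' d' : ℝ}
    (h : torus_HD x μ ν f c d) (h' : torus_HD x μ ν g c' d') :
    torus_HD x μ ν (fun y => f y * g y) (f x * c' + g x * c) (f x * d' + g x * d) := by
  unfold torus_HD at h h' ⊢
  have e : (f x * c' + g x * c) • (ContinuousLinearMap.proj μ : (Ix n → ℝ) →L[ℝ] ℝ) +
      (f x * d' + g x * d) • (ContinuousLinearMap.proj ν : (Ix n → ℝ) →L[ℝ] ℝ) =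
      f x • (c' • (ContinuousLinearMap.proj μ : (Ix n → ℝ) →L[ℝ] ℝ) +
        d' • (ContinuousLinearMap.proj ν : (Ix n → ℝ) →L[ℝ] ℝ)) +
      g x • (c • (ContinuousLinearMap.proj μ : (Ix n → ℝ) →L[ℝ] ℝ) +
        d • (ContinuousLinearMap.proj ν : (Ix n → ℝ) →L[ℝ] ℝ)) := by
    rw [add_smul, add_smul, smul_add, smul_add, smul_smul, smul_smul, smul_smul, smul_smul]
    abel
  rw [e]
  exact h.mul h'

theorem torus_HD.inv {n : ℕ} {x : Ix n → ℝ} {μ ν : Ix n} {f : (Ix n → ℝ) → ℝ} {c d : ℝ}
    (h : torus_HD x μ ν f c d) (hf : f x ≠ 0) :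
    torus_HD x μ ν (fun y => (f y)⁻¹) (-(f x ^ 2)⁻¹ * c) (-(f x ^ 2)⁻¹ * d) := by
  unfold torus_HD at h ⊢
  rw [mul_smul, mul_smul, ← smul_add]
  exact (hasDerivAt_inv hf).comp_hasFDerivAt x h

theorem torus_HD.div {n : ℕ} {x : Ix n → ℝ} {μ ν : Ix n} {f g : (Ix n → ℝ) → ℝ} {c d c' d' : ℝ}
    (h : torus_HD x μ ν f c d) (h' : torus_HD x μ ν g c' d') (hg : g x ≠ 0) :
    torus_HD x μ ν (fun y => f y / g y) ((c * g x - f x * c') / g x ^ 2)
      ((d * g x - f x * d') / g x ^ 2) := by
  simp only [div_eq_mul_inv]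
  refine (h.mul (h'.inv hg)).congr ?_ ?_
  · field_simp
    ring
  · field_simp
    ring

theorem torus_HD.coordL {n : ℕ} (x : Ix n → ℝ) (μ ν : Ix n) (r : ℝ) :
    torus_HD x μ ν (fun y => y μ - r) 1 0 := by
  unfold torus_HD
  rw [one_smul, zero_smul, add_zero]
  exact (hasFDerivAt_apply μ x).sub_const r

theorem torus_HD.coordR {n : ℕ} (x : Ix n → ℝ) (μ ν : Ix n) (r : ℝ) :
    torus_HD x μ ν (fun y => y ν - r) 0 1 := by
  unfold torus_HD
  rw [one_smul, zero_smul, zero_add]
  exact (hasFDerivAt_apply ν x).sub_const r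

/-- explicit local form of the real coordinate -/
noncomputable def torus_A {n : ℕ} (μ ν : Ix n) (m m' : ℝ) (y : Ix n → ℝ) : ℝ :=
  1 - 16 * ((y μ - m) ^ 2 + (y ν - m') ^ 2)

theorem torus_HD_A {n : ℕ} (x : Ix n → ℝ) (μ ν : Ix n) (m m' : ℝ) :
    torus_HD x μ ν (torus_A μ ν m m') (-32 * (x μ - m)) (-32 * (x ν - m')) := by
  have hS := torus_HD.coordL x μ ν m
  have hT := torus_HD.coordR x μ ν m'
  have h := (torus_HD.const x μ ν 1).add ((torus_HD.const x μ ν (-16)).mul
    ((hS.mul hS).add (hT.mul hT)))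
  have e : torus_A μ ν m m' = fun y => 1 + -16 * ((y μ - m) * (y μ - m) +
      (y ν - m') * (y ν - m')) := by
    funext y
    unfold torus_A
    ring
  rw [e]
  refine h.congr ?_ ?_
  · ring
  · ring

/-- embedding of a plane as the last two coordinates -/
def torus_V (n : ℕ) : Matrix (Fin (n + 1)) (Fin 2) ℂ :=
  fun k b => if (k : ℕ) + (1 - (b : ℕ)) = n then 1 else 0

theorem torus_V_orth {n : ℕ} (i : Fin n) :
    (torus_V n).conjTranspose * torus_V n = (1 : Matrix (Fin 2) (Fin 2) ℂ) := by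
  have hn : 1 ≤ n := i.pos
  have e : ∀ (k : Fin (n + 1)) (b : Fin 2), torus_V n k b =
      if k = ⟨n - (1 - (b : ℕ)), by omega⟩ then 1 else 0 := by
    intro k b
    unfold torus_V
    have h : ((k : ℕ) + (1 - (b : ℕ)) = n) ↔ k = ⟨n - (1 - (b : ℕ)), by omega⟩ := by
      rw [Fin.ext_iff]
      dsimp only
      omega
    by_cases hk : (k : ℕ) + (1 - (b : ℕ)) = n
    · rw [if_pos hk, if_pos (h.1 hk)]
    · rw [if_neg hk, if_neg (fun h' => hk (h.2 h'))]
  ext b c
  rw [Matrix.mul_apply]
  simp only [Matrix.conjTranspose_apply, e]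
  have e2 : ∀ k : Fin (n + 1), star (if k = (⟨n - (1 - (b : ℕ)), by omega⟩ : Fin (n + 1))
      then (1 : ℂ) else 0) * (if k = (⟨n - (1 - (c : ℕ)), by omega⟩ : Fin (n + 1)) then 1 else 0) =
      if k = (⟨n - (1 - (b : ℕ)), by omega⟩ : Fin (n + 1)) then
        (if (⟨n - (1 - (b : ℕ)), by omega⟩ : Fin (n + 1)) =
          (⟨n - (1 - (c : ℕ)), by omega⟩ : Fin (n + 1)) then 1 else 0) else 0 := by
    intro k
    by_cases hk : k = (⟨n - (1 - (b : ℕ)), by omega⟩ : Fin (n + 1))
    · rw [if_pos hk, if_pos hk, ← hk, star_one, one_mul]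
    · rw [if_neg hk, if_neg hk, star_zero, zero_mul]
  rw [Finset.sum_congr rfl (fun k _ => e2 k), Finset.sum_ite_eq' Finset.univ,
    if_pos (Finset.mem_univ _), Matrix.one_apply]
  have hbc : ((⟨n - (1 - (b : ℕ)), by omega⟩ : Fin (n + 1)) = ⟨n - (1 - (c : ℕ)), by omega⟩) ↔
      b = c := by
    rw [Fin.ext_iff, Fin.ext_iff]
    dsimp only
    omega
  by_cases h : b = c
  · rw [if_pos h, if_pos (hbc.2 h)]
  · rw [if_neg h, if_neg (fun h' => h (hbc.1 h'))]

theorem torus_u_local {n : ℕ} (i : Fin n) (y : Ix n → ℝ)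
    (hz : ∀ j, j ≠ i → torus_a (y (some (j, false))) (y (some (j, true))) = 0) :
    torus_u y = (torus_V n).mulVec ![(torus_a (y (some (i, false))) (y (some (i, true))) : ℂ),
      torus_w (y (some (i, false))) (y (some (i, true)))] := by
  classical
  have hn : 1 ≤ n := i.pos
  have hv0 : ∀ j, j ≠ i → torus_v y j False = 0 := by
    intro j hj
    unfold torus_v
    rw [if_neg not_false, hz j hj, Complex.ofReal_zero]
  have hv1 : ∀ j, j ≠ i → torus_v y j True = 1 := by
    intro j hj
    unfold torus_v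
    rw [if_pos trivial, torus_w_one (hz j hj)]
  have hvS : ∀ (S : Finset (Fin n)) j, torus_v y j (j ∈ S) =
      if j ∈ S then torus_v y j True else torus_v y j False := by
    intro S j
    unfold torus_v
    by_cases h : j ∈ S
    · rw [if_pos h, if_pos h, if_pos trivial]
    · rw [if_neg h, if_neg h, if_neg not_false]
  funext k
  unfold torus_u
  have hne : (Finset.univ : Finset (Fin n)) ≠ Finset.univ.erase i := by
    intro h
    have : i ∈ Finset.univ.erase i := by
      rw [← h]
      exact Finset.mem_univ i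
    exact (Finset.mem_erase.1 this).1 rfl
  rw [Finset.sum_eq_add (Finset.univ : Finset (Fin n)) (Finset.univ.erase i) hne]
  · have p1 : ∏ j, torus_v y j (j ∈ (Finset.univ : Finset (Fin n))) = torus_v y i True := by
      rw [Finset.prod_eq_single i]
      · rw [hvS, if_pos (Finset.mem_univ i)]
      · intro j _ hj
        rw [hvS, if_pos (Finset.mem_univ j), hv1 j hj]
      · intro h
        exact absurd (Finset.mem_univ i) h
    have p2 : ∏ j, torus_v y j (j ∈ (Finset.univ : Finset (Fin n)).erase i) =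
        torus_v y i False := by
      rw [Finset.prod_eq_single i]
      · rw [hvS, if_neg (fun h => (Finset.mem_erase.1 h).1 rfl)]
      · intro j _ hj
        rw [hvS, if_pos (Finset.mem_erase.2 ⟨hj, Finset.mem_univ j⟩), hv1 j hj]
      · intro h
        exact absurd (Finset.mem_univ i) h
    rw [p1, p2, Finset.card_erase_of_mem (Finset.mem_univ i), Finset.card_univ, Fintype.card_fin]
    unfold Matrix.mulVec dotProduct torus_V
    rw [Fin.sum_univ_two]
    simp only [Matrix.cons_val_zero, Matrix.cons_val_one, Fin.val_zero, Fin.val_one]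
    unfold torus_v
    rw [if_pos trivial, if_neg not_false]
    have c1 : ((k : ℕ) + (1 - 0) = n) ↔ n - 1 = (k : ℕ) := by omega
    have c2 : ((k : ℕ) + (1 - 1) = n) ↔ n = (k : ℕ) := by omega
    by_cases h1 : n = (k : ℕ)
    · rw [if_pos h1, if_neg (fun h => by omega), if_neg (fun h => by omega), if_pos (c2.2 h1)]
      ring
    · by_cases h2 : n - 1 = (k : ℕ)
      · rw [if_neg h1, if_pos h2, if_pos (c1.2 h2), if_neg (fun h => h1 (c2.1 h))]
        ring
      · rw [if_neg h1, if_neg h2, if_neg (fun h => h2 (c1.1 h)), if_neg (fun h => h1 (c2.1 h))]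
        ring
  · rintro S - ⟨hS1, hS2⟩
    have hex : ∃ j, j ≠ i ∧ j ∉ S := by
      by_contra hcon
      push Not at hcon
      by_cases hi : i ∈ S
      · refine hS1 (Finset.eq_univ_iff_forall.2 (fun j => ?_))
        by_cases hj : j = i
        · rw [hj]
          exact hi
        · exact hcon j hj
      · refine hS2 ?_
        ext j
        rw [Finset.mem_erase]
        constructor
        · intro hj
          exact ⟨fun h => hi (h ▸ hj), Finset.mem_univ j⟩
        · rintro ⟨hj, -⟩
          exact hcon j hj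
    obtain ⟨j, hj1, hj2⟩ := hex
    have : ∏ j, torus_v y j (j ∈ S) = 0 := by
      refine Finset.prod_eq_zero (Finset.mem_univ j) ?_
      rw [hvS, if_neg hj2, hv0 j hj1]
    rw [this, ite_self]
  · intro h
    exact absurd (Finset.mem_univ _) h
  · intro h
    exact absurd (Finset.mem_univ _) h

/-- the operator of a two by two matrix -/
noncomputable def torus_j (n : ℕ) (X : Matrix (Fin 2) (Fin 2) ℂ) : M (n + 1) :=
  torus_E n (torus_V n * X * (torus_V n).conjTranspose)

theorem torus_j_mul {n : ℕ} (i : Fin n) (X Y : Matrix (Fin 2) (Fin 2) ℂ) :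
    torus_j n X * torus_j n Y = torus_j n (X * Y) := by
  unfold torus_j
  rw [← map_mul]
  congr 1
  calc torus_V n * X * (torus_V n).conjTranspose * (torus_V n * Y * (torus_V n).conjTranspose)
      = torus_V n * X * ((torus_V n).conjTranspose * torus_V n) * Y *
        (torus_V n).conjTranspose := by simp only [Matrix.mul_assoc]
    _ = torus_V n * (X * Y) * (torus_V n).conjTranspose := by
        rw [torus_V_orth i, Matrix.mul_one]
        simp only [Matrix.mul_assoc]

theorem torus_j_sub {n : ℕ} (X Y : Matrix (Fin 2) (Fin 2) ℂ) :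
    torus_j n (X - Y) = torus_j n X - torus_j n Y := by
  unfold torus_j
  rw [← map_sub, Matrix.mul_sub, Matrix.sub_mul]

theorem torus_j_trace {n : ℕ} (i : Fin n) (X : Matrix (Fin 2) (Fin 2) ℂ) :
    LinearMap.trace ℂ (E (n + 1)) ((torus_j n X : M (n + 1)) : E (n + 1) →ₗ[ℂ] E (n + 1)) =
      X.trace := by
  unfold torus_j
  rw [Matrix.coe_toEuclideanCLM_eq_toEuclideanLin, Matrix.toEuclideanLin_eq_toLin_orthonormal,
    Matrix.trace_toLin_eq, Matrix.trace_mul_comm, ← Matrix.mul_assoc, torus_V_orth i,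
    Matrix.one_mul]

theorem torus_pi_local {n : ℕ} (i : Fin n) (y : Ix n → ℝ)
    (hz : ∀ j, j ≠ i → torus_a (y (some (j, false))) (y (some (j, true))) = 0)
    {a S T N : ℝ} (ha : torus_a (y (some (i, false))) (y (some (i, true))) = a)
    (hS : torus_T (y (some (i, false))) = S) (hT : torus_T (y (some (i, true))) = T)
    (hN : a ^ 2 + 1 - a = N) :
    torus_pi y = 1 - torus_j n (torus_Q (a ^ 2 / N) (4 * a * S / N) (4 * a * T / N)
      ((1 - a) / N)) := by
  have hu := torus_u_local i y hz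
  have haw := torus_aw (y (some (i, false))) (y (some (i, true)))
  have hww := torus_ww (y (some (i, false))) (y (some (i, true)))
  rw [ha] at hu haw hww
  rw [hS, hT] at haw
  set w : ℂ := torus_w (y (some (i, false))) (y (some (i, true))) with hw
  set v : Fin 2 → ℂ := ![(a : ℂ), w] with hv
  have hstar : star (torus_u y) = Matrix.vecMul (star v) (torus_V n).conjTranspose := by
    rw [hu, Matrix.star_mulVec]
  have hNN : (torus_N y : ℂ) = (N : ℂ) := by
    rw [← torus_star_dot, hstar, hu, ← Matrix.dotProduct_mulVec, Matrix.mulVec_mulVec,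
      torus_V_orth i, Matrix.one_mulVec]
    unfold dotProduct
    rw [Fin.sum_univ_two]
    have e0 : (star v) 0 * v 0 = (a : ℂ) ^ 2 := by
      change (starRingEnd ℂ) (a : ℂ) * a = _
      rw [Complex.conj_ofReal]
      ring
    have e1 : (star v) 1 * v 1 = ((1 - a : ℝ) : ℂ) := by
      change (starRingEnd ℂ) w * w = _
      rw [mul_comm]
      exact hww
    rw [e0, e1, ← hN]
    push_cast
    ring
  unfold torus_pi torus_j
  rw [map_sub, map_one]
  congr 2
  unfold torus_p
  rw [hNN, hstar, hu, ← Matrix.mul_vecMulVec, ← Matrix.vecMulVec_mul, ← Matrix.mul_assoc,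
    ← Matrix.smul_mul]
  have hin : (N : ℂ)⁻¹ • (torus_V n * Matrix.vecMulVec v (star v)) =
      torus_V n * torus_Q (a ^ 2 / N) (4 * a * S / N) (4 * a * T / N) ((1 - a) / N) := by
    rw [← Matrix.mul_smul]
    congr 1
    ext b c
    rw [Matrix.smul_apply, Matrix.vecMulVec_apply, smul_eq_mul, Pi.star_apply]
    have hc : (starRingEnd ℂ) w * (a : ℂ) = 4 * a * (S - T * Complex.I) := by
      have := congrArg (starRingEnd ℂ) haw
      rw [map_mul, Complex.conj_ofReal] at this
      rw [mul_comm, this]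
      simp only [map_mul, map_add, Complex.conj_ofReal, Complex.conj_I]
      have h4 : (starRingEnd ℂ) 4 = 4 := Complex.conj_ofReal 4
      rw [h4]
      ring
    fin_cases b <;> fin_cases c
    · change (N : ℂ)⁻¹ * ((a : ℂ) * (starRingEnd ℂ) (a : ℂ)) = ((a ^ 2 / N : ℝ) : ℂ)
      rw [Complex.conj_ofReal]
      push_cast
      ring
    · change (N : ℂ)⁻¹ * ((a : ℂ) * (starRingEnd ℂ) w) =
        ((4 * a * S / N : ℝ) : ℂ) - ((4 * a * T / N : ℝ) : ℂ) * Complex.I
      rw [mul_comm (a : ℂ), hc]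
      push_cast
      ring
    · change (N : ℂ)⁻¹ * (w * (starRingEnd ℂ) (a : ℂ)) =
        ((4 * a * S / N : ℝ) : ℂ) + ((4 * a * T / N : ℝ) : ℂ) * Complex.I
      rw [Complex.conj_ofReal, mul_comm w, haw]
      push_cast
      ring
    · change (N : ℂ)⁻¹ * (w * (starRingEnd ℂ) w) = (((1 - a) / N : ℝ) : ℂ)
      rw [hww]
      push_cast
      ring
  rw [hin]

theorem torus_j_lin {n : ℕ} (α β γ δ : ℝ) : torus_j n (torus_Q α β γ δ) =
    α • torus_j n (torus_Q 1 0 0 0) + β • torus_j n (torus_Q 0 1 0 0) +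
      γ • torus_j n (torus_Q 0 0 1 0) + δ • torus_j n (torus_Q 0 0 0 1) := by
  have hs : ∀ (r : ℝ) (X : M (n + 1)), r • X = (r : ℂ) • X := by
    intro r X
    ext z k
    simp
  have hX : torus_Q α β γ δ = (α : ℂ) • torus_Q 1 0 0 0 + (β : ℂ) • torus_Q 0 1 0 0 +
      (γ : ℂ) • torus_Q 0 0 1 0 + (δ : ℂ) • torus_Q 0 0 0 1 := by
    unfold torus_Q
    ext b c
    fin_cases b <;> fin_cases c <;> simp
    ring
  rw [hs, hs, hs, hs, hX]
  simp only [torus_j, Matrix.mul_add, Matrix.add_mul, Matrix.mul_smul, Matrix.smul_mul, map_add,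
    map_smul]

/-- the curvature at the points where the real coordinate is positive -/
theorem torus_int {n : ℕ} (i : Fin n) (x : Ix n → ℝ)
    (hz : ∀ j, j ≠ i → 1 / 4 < torus_nn (x (some (j, false))))
    (hpos : 0 < torus_a (x (some (i, false))) (x (some (i, true)))) :
    fpi (torus_pi (n := n)) x (some (i, false)) (some (i, true)) =
      torus_G (x (some (i, false))) (x (some (i, true))) := by
  set μ : Ix n := some (i, false) with hμ
  set ν : Ix n := some (i, true) with hν
  have hμν : μ ≠ ν := by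
    rw [hμ, hν]
    simp
  obtain ⟨hp1, hp2, hp3⟩ := torus_a_pos hpos
  set m : ℤ := round (x μ) with hm
  set m' : ℤ := round (x ν) with hm'
  have hx1 : |x μ - m| < 1 / 4 := hp1
  have hx2 : |x ν - m'| < 1 / 4 := hp2
  have hA0 : 0 < torus_A μ ν m m' x := by
    unfold torus_A
    have h1 := hp3
    rw [h1] at hpos
    unfold torus_nn at hpos
    rw [sq_abs, sq_abs] at hpos
    exact hpos
  -- continuity
  have cμ : Continuous (fun y : Ix n → ℝ => y μ) := continuous_apply μ
  have cν : Continuous (fun y : Ix n → ℝ => y ν) := continuous_apply ν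
  have cA : Continuous (torus_A (n := n) μ ν m m') := by
    unfold torus_A
    exact continuous_const.sub (continuous_const.mul (((cμ.sub continuous_const).pow 2).add
      ((cν.sub continuous_const).pow 2)))
  have ev1 : ∀ᶠ y : Ix n → ℝ in 𝓝 x, |y μ - (m : ℝ)| < 1 / 4 :=
    ((cμ.sub continuous_const).abs.continuousAt).eventually (gt_mem_nhds hx1)
  have ev2 : ∀ᶠ y : Ix n → ℝ in 𝓝 x, |y ν - (m' : ℝ)| < 1 / 4 :=
    ((cν.sub continuous_const).abs.continuousAt).eventually (gt_mem_nhds hx2)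
  have ev3 : ∀ᶠ y : Ix n → ℝ in 𝓝 x, 0 < torus_A μ ν m m' y :=
    cA.continuousAt.eventually (lt_mem_nhds hA0)
  have ev4 : ∀ᶠ y : Ix n → ℝ in 𝓝 x, ∀ j, j ≠ i → 1 / 4 < torus_nn (y (some (j, false))) := by
    rw [eventually_all]
    intro j
    by_cases hj : j = i
    · exact Eventually.of_forall (fun y h => absurd hj h)
    · have := ((torus_nn_cont.comp (continuous_apply (some (j, false)))).continuousAt
        (x := x)).eventually (lt_mem_nhds (hz j hj))
      filter_upwards [this] with y hy _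
      exact hy
  have hloc : ∀ y : Ix n → ℝ, |y μ - m| < 1 / 4 → |y ν - m'| < 1 / 4 → 0 < torus_A μ ν m m' y →
      (∀ j, j ≠ i → 1 / 4 < torus_nn (y (some (j, false)))) →
      torus_a (y μ) (y ν) = torus_A μ ν m m' y ∧
      torus_pi y = 1 - torus_j n (torus_Q
        (torus_A μ ν m m' y ^ 2 / (torus_A μ ν m m' y ^ 2 + 1 - torus_A μ ν m m' y))
        (4 * torus_A μ ν m m' y * (y μ - m) /
          (torus_A μ ν m m' y ^ 2 + 1 - torus_A μ ν m m' y))
        (4 * torus_A μ ν m m' y * (y ν - m') /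
          (torus_A μ ν m m' y ^ 2 + 1 - torus_A μ ν m m' y))
        ((1 - torus_A μ ν m m' y) /
          (torus_A μ ν m m' y ^ 2 + 1 - torus_A μ ν m m' y))) := by
    intro y h1 h2 h3 h4
    have ha : torus_a (y μ) (y ν) = torus_A μ ν m m' y := by
      unfold torus_a
      rw [torus_nn_eq (m := m) (by linarith), torus_nn_eq (m := m') (by linarith), sq_abs, sq_abs]
      exact max_eq_right h3.le
    exact ⟨ha, torus_pi_local i y (fun j hj => torus_a_zero_left (h4 j hj).le) ha
      (torus_T_eq h1.le) (torus_T_eq h2.le) rfl⟩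
  set A : (Ix n → ℝ) → ℝ := torus_A μ ν m m' with hA
  set NN : (Ix n → ℝ) → ℝ := fun y => A y ^ 2 + 1 - A y with hNN
  have hN0 : NN x ≠ 0 := by
    have := torus_den (A x)
    rw [hNN]
    dsimp only
    linarith
  -- derivatives of the coefficients
  have dA := torus_HD_A x μ ν m m'
  rw [← hA] at dA
  have dS := torus_HD.coordL x μ ν m
  have dT := torus_HD.coordR x μ ν m'
  set S : ℝ := x μ - m with hS
  set T : ℝ := x ν - m' with hT
  have dNN : torus_HD x μ ν NN ((2 * A x - 1) * (-32 * S)) ((2 * A x - 1) * (-32 * T)) := by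
    have h := ((dA.mul dA).add (torus_HD.const x μ ν 1)).add
      ((torus_HD.const x μ ν (-1)).mul dA)
    have e : NN = fun y => A y * A y + 1 + -1 * A y := by
      funext y
      rw [hNN]
      ring
    rw [e]
    refine h.congr ?_ ?_
    · ring
    · ring
  have d0 : torus_HD x μ ν (fun y => A y ^ 2) (2 * A x * (-32 * S)) (2 * A x * (-32 * T)) := by
    have e : (fun y => A y ^ 2) = fun y => A y * A y := by
      funext y
      ring
    rw [e]
    refine (dA.mul dA).congr ?_ ?_
    · ring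
    · ring
  have d1 : torus_HD x μ ν (fun y => 4 * A y * (y μ - m)) (4 * (-32 * S) * S + 4 * A x)
      (4 * (-32 * T) * S) := by
    refine (((torus_HD.const x μ ν 4).mul dA).mul dS).congr ?_ ?_
    · ring
    · ring
  have d2 : torus_HD x μ ν (fun y => 4 * A y * (y ν - m')) (4 * (-32 * S) * T)
      (4 * (-32 * T) * T + 4 * A x) := by
    refine (((torus_HD.const x μ ν 4).mul dA).mul dT).congr ?_ ?_
    · ring
    · ring
  have d3 : torus_HD x μ ν (fun y => 1 - A y) (32 * S) (32 * T) := by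
    have e : (fun y => 1 - A y) = fun y => 1 + -1 * A y := by
      funext y
      ring
    rw [e]
    refine ((torus_HD.const x μ ν 1).add ((torus_HD.const x μ ν (-1)).mul dA)).congr ?_ ?_
    · ring
    · ring
  have q0 := d0.div dNN hN0
  have q1 := d1.div dNN hN0
  have q2 := d2.div dNN hN0
  have q3 := d3.div dNN hN0
  -- the derivative of the family
  set F0 : M (n + 1) := torus_j n (torus_Q 1 0 0 0) with hF0
  set F1 : M (n + 1) := torus_j n (torus_Q 0 1 0 0) with hF1
  set F2 : M (n + 1) := torus_j n (torus_Q 0 0 1 0) with hF2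
  set F3 : M (n + 1) := torus_j n (torus_Q 0 0 0 1) with hF3
  have hev : torus_pi (n := n) =ᶠ[𝓝 x] fun y => 1 - ((A y ^ 2 / NN y) • F0 +
      (4 * A y * (y μ - m) / NN y) • F1 + (4 * A y * (y ν - m') / NN y) • F2 +
      ((1 - A y) / NN y) • F3) := by
    filter_upwards [ev1, ev2, ev3, ev4] with y h1 h2 h3 h4
    rw [(hloc y h1 h2 h3 h4).2, torus_j_lin]
  have hfd : HasFDerivAt (torus_pi (n := n)) _ x :=
    ((((HasFDerivAt.smul_const q0 F0).add (HasFDerivAt.smul_const q1 F1)).add
      (HasFDerivAt.smul_const q2 F2)).add (HasFDerivAt.smul_const q3 F3)).const_sub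
        (1 : M (n + 1)) |>.congr_of_eventuallyEq hev
  have hfp : ∀ c d : ℝ, ∀ F : M (n + 1),
      ((c • (ContinuousLinearMap.proj μ : (Ix n → ℝ) →L[ℝ] ℝ) +
        d • (ContinuousLinearMap.proj ν : (Ix n → ℝ) →L[ℝ] ℝ)).smulRight F) (Pi.single μ 1) =
        c • F ∧
      ((c • (ContinuousLinearMap.proj μ : (Ix n → ℝ) →L[ℝ] ℝ) +
        d • (ContinuousLinearMap.proj ν : (Ix n → ℝ) →L[ℝ] ℝ)).smulRight F) (Pi.single ν 1) =
        d • F := by
    intro c d F
    have e1 : (Pi.single μ (1 : ℝ) : Ix n → ℝ) μ = 1 := Pi.single_eq_same _ _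
    have e2 : (Pi.single μ (1 : ℝ) : Ix n → ℝ) ν = 0 := Pi.single_eq_of_ne hμν.symm _
    have e3 : (Pi.single ν (1 : ℝ) : Ix n → ℝ) μ = 0 := Pi.single_eq_of_ne hμν _
    have e4 : (Pi.single ν (1 : ℝ) : Ix n → ℝ) ν = 1 := Pi.single_eq_same _ _
    constructor
    · change (c • (Pi.single μ (1 : ℝ) : Ix n → ℝ) μ + d • (Pi.single μ (1 : ℝ) : Ix n → ℝ) ν) • F
        = c • F
      rw [e1, e2, smul_zero, add_zero, smul_eq_mul, mul_one]
    · change (c • (Pi.single ν (1 : ℝ) : Ix n → ℝ) μ + d • (Pi.single ν (1 : ℝ) : Ix n → ℝ) ν) • F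
        = d • F
      rw [e3, e4, smul_zero, zero_add, smul_eq_mul, mul_one]
  have hpμ : pd (torus_pi (n := n)) x μ = -torus_j n (torus_Q
      ((2 * A x * (-32 * S) * NN x - A x ^ 2 * ((2 * A x - 1) * (-32 * S))) / NN x ^ 2)
      (((4 * (-32 * S) * S + 4 * A x) * NN x - 4 * A x * S * ((2 * A x - 1) * (-32 * S))) /
        NN x ^ 2)
      ((4 * (-32 * S) * T * NN x - 4 * A x * T * ((2 * A x - 1) * (-32 * S))) / NN x ^ 2)
      ((32 * S * NN x - (1 - A x) * ((2 * A x - 1) * (-32 * S))) / NN x ^ 2)) := by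
    unfold pd
    rw [hfd.fderiv, torus_j_lin]
    rw [ContinuousLinearMap.neg_apply, ContinuousLinearMap.add_apply,
      ContinuousLinearMap.add_apply, ContinuousLinearMap.add_apply, (hfp _ _ F0).1,
      (hfp _ _ F1).1, (hfp _ _ F2).1, (hfp _ _ F3).1]
  have hpν : pd (torus_pi (n := n)) x ν = -torus_j n (torus_Q
      ((2 * A x * (-32 * T) * NN x - A x ^ 2 * ((2 * A x - 1) * (-32 * T))) / NN x ^ 2)
      ((4 * (-32 * T) * S * NN x - 4 * A x * S * ((2 * A x - 1) * (-32 * T))) / NN x ^ 2)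
      (((4 * (-32 * T) * T + 4 * A x) * NN x - 4 * A x * T * ((2 * A x - 1) * (-32 * T))) /
        NN x ^ 2)
      ((32 * T * NN x - (1 - A x) * ((2 * A x - 1) * (-32 * T))) / NN x ^ 2)) := by
    unfold pd
    rw [hfd.fderiv, torus_j_lin]
    rw [ContinuousLinearMap.neg_apply, ContinuousLinearMap.add_apply,
      ContinuousLinearMap.add_apply, ContinuousLinearMap.add_apply, (hfp _ _ F0).2,
      (hfp _ _ F1).2, (hfp _ _ F2).2, (hfp _ _ F3).2]
  obtain ⟨hax, hpx⟩ := hloc x hx1 hx2 hA0 hz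
  have hπ : 1 - torus_pi x = torus_j n (torus_Q (A x ^ 2 / NN x) (4 * A x * S / NN x)
      (4 * A x * T / NN x) ((1 - A x) / NN x)) := by
    rw [hpx, sub_sub_cancel]
  have hneg : ∀ X Y : M (n + 1), (-X) * (-Y) = X * Y := fun X Y => neg_mul_neg X Y
  unfold fpi
  rw [hpμ, hpν, hπ, hneg, hneg, torus_j_mul i, torus_j_mul i, ← torus_j_sub,
    torus_j_mul i, torus_j_trace i, torus_tr, torus_scal _ _ _ _ _ _ _ _ _ _ _ _ _ _ _ hN0]
  have hpoly := torus_poly S T (A x) rfl
  unfold torus_G
  rw [hax]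
  have hNx : A x ^ 2 + 1 - A x = NN x := rfl
  rw [hNx] at hpoly ⊢
  have hfin : 32 * A x * (2 - A x) / NN x ^ 2 = 2 * (16 * A x * (2 - A x) * NN x) / NN x ^ 3 := by
    field_simp
    ring
  rw [hfin, ← hpoly]

/-- Part 3 -/
theorem st_TORUS : ST_TORUS := by
  intro n
  refine ⟨torus_pi, torus_G, ⟨torus_lip n, torus_proj, torus_per, torus_tin, ?_, torus_stripT,
    torus_G_cont.measurable, ⟨128, torus_G_bdd⟩, torus_G_pos, ?_⟩⟩
  · intro σ x
    exact torus_pi_congr (torus_u_perm σ x)
  · intro i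
    refine Eventually.of_forall (fun x hx => ?_)
    have hz : ∀ j, j ≠ i → 1 / 4 < torus_nn (x (some (j, false))) := by
      intro j hj
      have h := hx j hj false
      unfold inStrip at h
      obtain ⟨h1, h2⟩ := h
      have h3 : torus_nn (x (some (j, false))) =
        min (Int.fract (x (some (j, false)))) (1 - Int.fract (x (some (j, false)))) :=
        abs_sub_round_eq_min _
      rw [h3]
      exact lt_min (by linarith) (by linarith)
    rcases (torus_a_nonneg (x (some (i, false))) (x (some (i, true)))).lt_or_eq with h | h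
    · exact torus_int i x hz h
    · have h0 := torus_ext x i h.symm
      unfold fpi torus_G
      rw [h0, ← h]
      simp

end Pool.Agent.Helper83.CB
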